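import Mathlib

/-! Divisibility of analytic germs by powers of the parameter, local inverses, roots. -/

set_option autoImplicit false

open Filter Topology

namespace Pool.Agent.T6.H40.MT

variable {E : Type*} [NormedAddCommGroup E] [NormedSpace ℂ E]

/-- `f` is analytic at `0` and divisible by `t ^ N`. -/
def DV (N : ℕ) (f : ℂ → E) : Prop := AnalyticAt ℂ f 0 ∧ (N : ℕ∞) ≤ analyticOrderAt f 0

theorem dv_iff {N : ℕ} {f : ℂ → E} :
    DV N f ↔ ∃ g, AnalyticAt ℂ g 0 ∧ ∀ᶠ t in 𝓝 (0 : ℂ), f t = t ^ N • g t := by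
  constructor
  · rintro ⟨hf, h⟩
    rw [natCast_le_analyticOrderAt hf] at h
    simpa using h
  · rintro ⟨g, hg, h⟩
    have hf : AnalyticAt ℂ f 0 := by
      have : AnalyticAt ℂ (fun t : ℂ => t ^ N • g t) 0 := by fun_prop
      exact this.congr (h.mono fun t ht => ht.symm)
    refine ⟨hf, ?_⟩
    rw [natCast_le_analyticOrderAt hf]
    exact ⟨g, hg, by simpa using h⟩

theorem DV.an {N : ℕ} {f : ℂ → E} (h : DV N f) : AnalyticAt ℂ f 0 := h.1

theorem DV.of_an {f : ℂ → E} (h : AnalyticAt ℂ f 0) : DV 0 f := ⟨h, by simp⟩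

theorem DV.mono {N N' : ℕ} {f : ℂ → E} (h : DV N f) (hN : N' ≤ N) : DV N' f :=
  ⟨h.1, le_trans (by exact_mod_cast hN) h.2⟩

theorem DV.congr {N : ℕ} {f g : ℂ → E} (h : DV N f) (hfg : f =ᶠ[𝓝 0] g) : DV N g :=
  ⟨h.1.congr hfg, by rw [← analyticOrderAt_congr hfg]; exact h.2⟩

theorem DV.add {N : ℕ} {f g : ℂ → E} (hf : DV N f) (hg : DV N g) : DV N (fun t => f t + g t) :=
  ⟨hf.1.add hg.1, le_trans (le_min hf.2 hg.2) le_analyticOrderAt_add⟩

theorem DV.sub {N : ℕ} {f g : ℂ → E} (hf : DV N f) (hg : DV N g) : DV N (fun t => f t - g t) :=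
  ⟨hf.1.sub hg.1, le_trans (le_min hf.2 hg.2) le_analyticOrderAt_sub⟩

theorem DV.neg {N : ℕ} {f : ℂ → E} (hf : DV N f) : DV N (fun t => - f t) :=
  ⟨hf.1.neg, by
    have := analyticOrderAt_neg (f := f) (z₀ := (0 : ℂ))
    rw [show (fun t => - f t) = -f from rfl, this]; exact hf.2⟩

theorem DV.smul {a b : ℕ} {f : ℂ → ℂ} {g : ℂ → E} (hf : DV a f) (hg : DV b g) :
    DV (a + b) (fun t => f t • g t) := by
  refine ⟨hf.1.smul hg.1, ?_⟩
  rw [show (fun t => f t • g t) = f • g from rfl, analyticOrderAt_smul hf.1 hg.1]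
  push_cast
  exact add_le_add hf.2 hg.2

theorem DV.mul {a b : ℕ} {f g : ℂ → ℂ} (hf : DV a f) (hg : DV b g) :
    DV (a + b) (fun t => f t * g t) := hf.smul hg

theorem DV.const_smul {N : ℕ} {f : ℂ → E} (c : ℂ) (hf : DV N f) : DV N (fun t => c • f t) := by
  have := (DV.of_an (f := fun _ : ℂ => c) analyticAt_const).smul hf
  rwa [zero_add] at this

theorem DV.const_mul {N : ℕ} {f : ℂ → ℂ} (c : ℂ) (hf : DV N f) : DV N (fun t => c * f t) :=
  hf.const_smul c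

theorem dv_id : DV 1 (fun t : ℂ => t) := dv_iff.2 ⟨fun _ => 1, analyticAt_const, by simp⟩

theorem DV.pow {a : ℕ} {f : ℂ → ℂ} (hf : DV a f) (q : ℕ) : DV (q * a) (fun t => f t ^ q) := by
  induction q with
  | zero => rw [zero_mul]; exact DV.of_an (by simp only [pow_zero]; exact analyticAt_const)
  | succ q ih =>
    have := ih.mul hf
    rw [show (q + 1) * a = q * a + a by ring]
    exact this

theorem DV.zero_val {N : ℕ} {f : ℂ → E} (hf : DV (N + 1) f) : f 0 = 0 := by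
  obtain ⟨g, _, h⟩ := dv_iff.1 hf
  rw [h.self_of_nhds]
  simp

theorem dv_one {f : ℂ → E} (hf : AnalyticAt ℂ f 0) (h0 : f 0 = 0) : DV 1 f := by
  refine ⟨hf, ?_⟩
  have : analyticOrderAt f 0 ≠ 0 := by rwa [hf.analyticOrderAt_ne_zero]
  exact_mod_cast ENat.one_le_iff_ne_zero.2 this

theorem dv_sum {ι : Type*} (s : Finset ι) {N : ℕ} {f : ι → ℂ → E} (h : ∀ x ∈ s, DV N (f x)) :
    DV N (fun t => ∑ x ∈ s, f x t) := by
  classical
  induction s using Finset.induction_on with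
  | empty =>
    refine dv_iff.2 ⟨fun _ => 0, analyticAt_const, by simp⟩
  | insert a s ha ih =>
    have h1 := (h a (Finset.mem_insert_self a s)).add
      (ih fun x hx => h x (Finset.mem_insert_of_mem hx))
    refine h1.congr (Eventually.of_forall fun t => ?_)
    simp only [Finset.sum_insert ha]

theorem dv_zero {N : ℕ} : DV N (fun _ : ℂ => (0 : E)) :=
  dv_iff.2 ⟨fun _ => 0, analyticAt_const, by simp⟩

theorem DV.comp {N : ℕ} {f : ℂ → E} {τ : ℂ → ℂ} (hf : DV N f) (hτ : AnalyticAt ℂ τ 0)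
    (h0 : τ 0 = 0) : DV N (fun t => f (τ t)) := by
  obtain ⟨g, hg, h⟩ := dv_iff.1 hf
  obtain ⟨σ, hσ, h'⟩ := dv_iff.1 (dv_one hτ h0)
  have ht : Tendsto τ (𝓝 0) (𝓝 0) := by
    have := hτ.continuousAt.tendsto
    rwa [h0] at this
  refine dv_iff.2 ⟨fun t => σ t ^ N • g (τ t), ?_, ?_⟩
  · have : AnalyticAt ℂ (fun t => g (τ t)) 0 := by
      apply AnalyticAt.comp' _ hτ
      rwa [h0]
    exact (hσ.pow N).smul this
  · filter_upwards [ht.eventually h, h'] with t h1 h2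
    rw [h1, smul_smul, ← mul_pow]
    congr 2
    rw [h2]
    simp

section complete
variable [CompleteSpace E]

theorem DV.deriv {N : ℕ} {f : ℂ → E} (hf : DV (N + 1) f) : DV N (deriv f) := by
  refine ⟨hf.1.deriv, ?_⟩
  rw [analyticOrderAt_deriv_ge_iff hf.1 hf.zero_val]
  exact_mod_cast hf.2

theorem DV.of_deriv {N : ℕ} {f : ℂ → E} (hf : AnalyticAt ℂ f 0) (h0 : f 0 = 0)
    (h : DV N (_root_.deriv f)) : DV (N + 1) f := by
  refine ⟨hf, ?_⟩
  have := (analyticOrderAt_deriv_ge_iff hf h0).1 h.2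
  exact_mod_cast this

theorem an_deriv {f : ℂ → E} (hf : AnalyticAt ℂ f 0) : AnalyticAt ℂ (deriv f) 0 := hf.deriv

end complete

/-- cancel a factor of known order -/
theorem DV.of_smul {N μ : ℕ} {g : ℂ → ℂ} {f : ℂ → E} (hg : AnalyticAt ℂ g 0)
    (hμ : analyticOrderAt g 0 = μ) (hf : AnalyticAt ℂ f 0) (h : DV (N + μ) (fun t => g t • f t)) :
    DV N f := by
  refine ⟨hf, ?_⟩
  have h1 := h.2
  rw [show (fun t => g t • f t) = g • f from rfl, analyticOrderAt_smul hg hf, hμ] at h1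
  push_cast at h1
  rw [add_comm] at h1
  exact (ENat.add_le_add_iff_left (ENat.coe_ne_top μ)).1 h1

theorem DV.of_mul {N μ : ℕ} {g f : ℂ → ℂ} (hg : AnalyticAt ℂ g 0)
    (hμ : analyticOrderAt g 0 = μ) (hf : AnalyticAt ℂ f 0) (h : DV (N + μ) (fun t => g t * f t)) :
    DV N f := DV.of_smul hg hμ hf h

theorem dv_of_order {μ : ℕ} {f : ℂ → E} (hf : AnalyticAt ℂ f 0)
    (hμ : analyticOrderAt f 0 = μ) : DV μ f := ⟨hf, hμ.ge⟩

/-- divide by a factor of known order -/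
theorem DV.div {N μ : ℕ} {g : ℂ → ℂ} {f : ℂ → E} (hg : AnalyticAt ℂ g 0)
    (hμ : analyticOrderAt g 0 = μ) (h : DV (N + μ) f) :
    ∃ q : ℂ → E, DV N q ∧ ∀ᶠ t in 𝓝 (0 : ℂ), f t = g t • q t := by
  obtain ⟨u, hu, hu0, h1⟩ := (hg.analyticOrderAt_eq_natCast).1 hμ
  obtain ⟨w, hw, h2⟩ := dv_iff.1 h
  refine ⟨fun t => t ^ N • ((u t)⁻¹ • w t), dv_iff.2 ⟨fun t => (u t)⁻¹ • w t,
    (hu.inv hu0).smul hw, Eventually.of_forall fun _ => rfl⟩, ?_⟩
  filter_upwards [h1, h2, hu.continuousAt.eventually_ne hu0] with t h1 h2 h3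
  rw [h1, h2]
  simp only [sub_zero, smul_smul, smul_eq_mul]
  congr 1
  field_simp
  ring

theorem dv_pi {n N : ℕ} {f : ℂ → Fin n → ℂ} : DV N f ↔ ∀ c, DV N (fun t => f t c) := by
  constructor
  · intro h c
    obtain ⟨g, hg, h1⟩ := dv_iff.1 h
    refine dv_iff.2 ⟨fun t => g t c, ?_, ?_⟩
    · exact (ContinuousLinearMap.proj (R := ℂ) (φ := fun _ : Fin n => ℂ) c).analyticAt _ |>.comp hg
    · filter_upwards [h1] with t ht
      rw [ht]
      rfl
  · intro h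
    choose g hg h1 using fun c => dv_iff.1 (h c)
    refine dv_iff.2 ⟨fun t c => g c t, AnalyticAt.pi fun c => hg c, ?_⟩
    filter_upwards [eventually_all.2 h1] with t ht
    funext c
    rw [ht c]
    rfl

/-! ### Local biholomorphisms -/

/-- germ of a biholomorphism of `(ℂ, 0)` -/
structure Bi (τ : ℂ → ℂ) : Prop where
  an : AnalyticAt ℂ τ 0
  zero : τ 0 = 0
  ne : deriv τ 0 ≠ 0

theorem Bi.tendsto {τ : ℂ → ℂ} (h : Bi τ) : Tendsto τ (𝓝 0) (𝓝 0) := by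
  have := h.an.continuousAt.tendsto
  rwa [h.zero] at this

theorem bi_id : Bi (fun t => t) := ⟨analyticAt_id, rfl, by simp⟩

theorem an_comp {F : Type*} [NormedAddCommGroup F] [NormedSpace ℂ F] {f : ℂ → F} {τ : ℂ → ℂ}
    (hf : AnalyticAt ℂ f 0) (hτ : AnalyticAt ℂ τ 0) (h0 : τ 0 = 0) :
    AnalyticAt ℂ (fun t => f (τ t)) 0 := by
  apply AnalyticAt.comp' _ hτ
  rwa [h0]

theorem Bi.comp {σ τ : ℂ → ℂ} (hσ : Bi σ) (hτ : Bi τ) : Bi (fun t => σ (τ t)) := by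
  refine ⟨an_comp hσ.an hτ.an hτ.zero, by rw [hτ.zero, hσ.zero], ?_⟩
  have h1 : HasDerivAt σ (deriv σ 0) (τ 0) := by
    rw [hτ.zero]; exact hσ.an.differentiableAt.hasDerivAt
  have h2 := h1.comp 0 hτ.an.differentiableAt.hasDerivAt
  have h3 : deriv (fun t => σ (τ t)) 0 = deriv σ 0 * deriv τ 0 := h2.deriv
  rw [h3]
  exact mul_ne_zero hσ.ne hτ.ne

theorem Bi.order_comp [CompleteSpace E] {f : ℂ → E} {τ : ℂ → ℂ} (hτ : Bi τ) :
    analyticOrderAt (fun t => f (τ t)) 0 = analyticOrderAt f 0 := by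
  have := analyticOrderAt_comp_of_deriv_ne_zero (f := f) hτ.an hτ.ne
  rw [hτ.zero] at this
  exact this

theorem Bi.inv {τ : ℂ → ℂ} (hτ : Bi τ) : ∃ ψ : ℂ → ℂ, Bi ψ ∧ (∀ᶠ t in 𝓝 (0 : ℂ), τ (ψ t) = t) ∧
    ∀ᶠ t in 𝓝 (0 : ℂ), ψ (τ t) = t := by
  set ψ := hτ.an.hasStrictDerivAt.localInverse _ _ _ hτ.ne with hψ
  have h1 : AnalyticAt ℂ ψ 0 := by
    have := hτ.an.analyticAt_localInverse hτ.ne
    rwa [hτ.zero] at this
  have h2 : ψ 0 = 0 := by
    have : ψ (τ 0) = 0 := HasStrictFDerivAt.localInverse_apply_image ..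
    rwa [hτ.zero] at this
  have h3 : ∀ᶠ t in 𝓝 (0 : ℂ), τ (ψ t) = t := by
    have := HasStrictDerivAt.eventually_right_inverse hτ.an.hasStrictDerivAt hτ.ne
    rw [hτ.zero] at this
    exact this
  have h4 : ∀ᶠ t in 𝓝 (0 : ℂ), ψ (τ t) = t :=
    HasStrictDerivAt.eventually_left_inverse hτ.an.hasStrictDerivAt hτ.ne
  refine ⟨ψ, ⟨h1, h2, ?_⟩, h3, h4⟩
  intro h5
  have h6 : HasDerivAt ψ (deriv ψ 0) (τ 0) := by
    rw [hτ.zero]; exact h1.differentiableAt.hasDerivAt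
  have h7 := h6.comp 0 hτ.an.differentiableAt.hasDerivAt
  have h8 : HasDerivAt (fun t : ℂ => t) (deriv ψ 0 * deriv τ 0) 0 :=
    h7.congr_of_eventuallyEq (h4.mono fun t ht => ht.symm)
  have h9 := h8.unique (hasDerivAt_id 0)
  rw [h5, zero_mul] at h9
  exact zero_ne_one h9

theorem Bi.deriv_comp {F : Type*} [NormedAddCommGroup F] [NormedSpace ℂ F] [CompleteSpace F]
    {f : ℂ → F} {τ : ℂ → ℂ}
    (hf : AnalyticAt ℂ f 0) (hτ : Bi τ) :
    ∀ᶠ t in 𝓝 (0 : ℂ), deriv (fun s => f (τ s)) t = deriv τ t • deriv f (τ t) := by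
  filter_upwards [hτ.tendsto.eventually hf.eventually_analyticAt, hτ.an.eventually_analyticAt]
    with t h1 h2
  exact (HasDerivAt.scomp t h1.differentiableAt.hasDerivAt h2.differentiableAt.hasDerivAt).deriv

/-- primitives of analytic germs -/
theorem exists_prim [CompleteSpace E] {f : ℂ → E} (hf : AnalyticAt ℂ f 0) (y : E) :
    ∃ F : ℂ → E, AnalyticAt ℂ F 0 ∧ F 0 = y ∧ deriv F =ᶠ[𝓝 0] f := by
  obtain ⟨r, hr, hb⟩ := Metric.eventually_nhds_iff_ball.1 hf.eventually_analyticAt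
  have hd : DifferentiableOn ℂ f (Metric.ball 0 r) := fun t ht =>
    (hb t ht).differentiableAt.differentiableWithinAt
  obtain ⟨F, hF0, hF⟩ := hd.isExactOn_ball.with_val_at 0 y
  refine ⟨F, ?_, hF0, ?_⟩
  · have h1 : DifferentiableOn ℂ F (Metric.ball 0 r) := fun t ht =>
      (hF t ht).differentiableAt.differentiableWithinAt
    exact h1.analyticAt (Metric.ball_mem_nhds 0 hr)
  · filter_upwards [Metric.ball_mem_nhds 0 hr] with t ht
    exact (hF t ht).deriv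

/-- two analytic germs with the same value and derivative are equal -/
theorem eq_of_deriv [CompleteSpace E] {f g : ℂ → E} (hf : AnalyticAt ℂ f 0)
    (hg : AnalyticAt ℂ g 0) (h0 : f 0 = g 0) (h : deriv f =ᶠ[𝓝 0] deriv g) : f =ᶠ[𝓝 0] g := by
  have h1 : AnalyticAt ℂ (fun t => f t - g t) 0 := hf.sub hg
  have h2 : deriv (fun t => f t - g t) =ᶠ[𝓝 0] fun _ => 0 := by
    filter_upwards [h, hf.eventually_analyticAt, hg.eventually_analyticAt] with t h3 h4 h5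
    rw [deriv_fun_sub h4.differentiableAt h5.differentiableAt, h3, sub_self]
  have h3 : analyticOrderAt (deriv (fun t => f t - g t)) 0 = ⊤ := by
    rw [analyticOrderAt_eq_top]
    exact h2
  have h4 := (analyticOrderAt_deriv_eq_top_iff_of_eq_zero h1 (by simp [h0])).1 h3
  rw [analyticOrderAt_eq_top] at h4
  filter_upwards [h4] with t ht
  exact sub_eq_zero.1 ht

end Pool.Agent.T6.H40.MT
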