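import Mathlib
import Pool.Agent.T6.H40.MT.Ord

/-! Composition estimates, roots, and the change of parameter taking one germ to another. -/

set_option autoImplicit false

open Filter Topology

namespace Pool.Agent.T6.H40.MT

variable {E : Type*} [NormedAddCommGroup E] [NormedSpace ℂ E]

/-- `σ₁ ^ i - σ₂ ^ i` -/
theorem dv_pow_sub {e i : ℕ} {σ₁ σ₂ : ℂ → ℂ} (h1 : AnalyticAt ℂ σ₁ 0) (h1' : σ₁ 0 = 0)
    (h2 : AnalyticAt ℂ σ₂ 0) (h2' : σ₂ 0 = 0) (h : DV e (fun t => σ₁ t - σ₂ t)) :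
    DV (e + (i - 1)) (fun t => σ₁ t ^ i - σ₂ t ^ i) := by
  have key : ∀ t, σ₁ t ^ i - σ₂ t ^ i
      = (σ₁ t - σ₂ t) * ∑ x ∈ Finset.range i, σ₁ t ^ x * σ₂ t ^ (i - 1 - x) := by
    intro t
    rw [mul_comm, geom_sum₂_mul]
  have h3 : DV (i - 1) (fun t => ∑ x ∈ Finset.range i, σ₁ t ^ x * σ₂ t ^ (i - 1 - x)) := by
    apply dv_sum
    intro x hx
    rw [Finset.mem_range] at hx
    have h4 := ((dv_one h1 h1').pow x).mul ((dv_one h2 h2').pow (i - 1 - x))
    refine h4.mono ?_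
    omega
  exact (h.mul h3).congr (Eventually.of_forall fun t => (key t).symm)

/-- `V (σ₁ t) - V (σ₂ t)` -/
theorem dv_comp_sub [CompleteSpace E] {μ e : ℕ} {V : ℂ → E} {σ₁ σ₂ : ℂ → ℂ}
    (hV : AnalyticAt ℂ V 0) (hV' : DV μ (deriv V))
    (h1 : AnalyticAt ℂ σ₁ 0) (h1' : σ₁ 0 = 0) (h2 : AnalyticAt ℂ σ₂ 0) (h2' : σ₂ 0 = 0)
    (h : DV e (fun t => σ₁ t - σ₂ t)) : DV (μ + e) (fun t => V (σ₁ t) - V (σ₂ t)) := by
  obtain ⟨F, hF, hVF⟩ := hV.exists_eventuallyEq_sum_add_pow_mul (μ + e + 1)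
  have t1 : Tendsto σ₁ (𝓝 0) (𝓝 0) := by
    have := h1.continuousAt.tendsto; rwa [h1'] at this
  have t2 : Tendsto σ₂ (𝓝 0) (𝓝 0) := by
    have := h2.continuousAt.tendsto; rwa [h2'] at this
  have hz : ∀ i, 1 ≤ i → i ≤ μ → iteratedDeriv i V 0 = 0 := by
    intro i hi1 hi2
    have h3 := (natCast_le_analyticOrderAt_iff_iteratedDeriv_eq_zero hV'.1).1 hV'.2 (i - 1)
      (by omega)
    rw [← iteratedDeriv_succ'] at h3
    rwa [show i - 1 + 1 = i by omega] at h3
  -- the polynomial part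
  have hP : DV (μ + e) (fun t => ∑ i ∈ Finset.range (μ + e + 1),
      ((σ₁ t ^ i - σ₂ t ^ i) * ((i.factorial : ℂ))⁻¹) • iteratedDeriv i V 0) := by
    apply dv_sum
    intro i _
    rcases Nat.eq_zero_or_pos i with rfl | hi
    · simp only [pow_zero, sub_self, zero_mul, zero_smul]
      exact dv_zero
    · rcases Nat.lt_or_ge μ i with hi2 | hi2
      · have h4 := (dv_pow_sub (i := i) h1 h1' h2 h2' h).mono
          (show μ + e ≤ e + (i - 1) by omega)
        have h5 := (h4.mul (DV.of_an (f := fun _ : ℂ => ((i.factorial : ℂ))⁻¹)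
          analyticAt_const)).smul (DV.of_an (f := fun _ : ℂ => iteratedDeriv i V 0)
          analyticAt_const)
        simpa using h5
      · have h4 := hz i hi hi2
        simp only [h4, smul_zero]
        exact dv_zero
  have hR : DV (μ + e) (fun t => σ₁ t ^ (μ + e + 1) • F (σ₁ t) - σ₂ t ^ (μ + e + 1) • F (σ₂ t)) := by
    apply DV.sub
    · have h4 := ((dv_one h1 h1').pow (μ + e + 1)).smul (DV.of_an (an_comp hF h1 h1'))
      exact h4.mono (by omega)
    · have h4 := ((dv_one h2 h2').pow (μ + e + 1)).smul (DV.of_an (an_comp hF h2 h2'))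
      exact h4.mono (by omega)
  refine (hP.add hR).congr ?_
  filter_upwards [t1.eventually hVF, t2.eventually hVF] with t h3 h4
  rw [h3, h4]
  rw [add_sub_add_comm]
  congr 1
  rw [← Finset.sum_sub_distrib]
  apply Finset.sum_congr rfl
  intro i _
  rw [← sub_smul]
  congr 1
  ring

/-- cancel the root: `ŵ ^ q - w ^ q` divisible by `t ^ s` gives `ŵ - w` divisible by `t ^ s`. -/
theorem dv_root_sub {q s : ℕ} (hq : 1 ≤ q) {w w' : ℂ → ℂ} (h1 : AnalyticAt ℂ w 0)
    (h2 : AnalyticAt ℂ w' 0) (h0 : w 0 ≠ 0) (h3 : w' 0 = w 0)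
    (h : DV s (fun t => w' t ^ q - w t ^ q)) : DV s (fun t => w' t - w t) := by
  set S : ℂ → ℂ := fun t => ∑ x ∈ Finset.range q, w' t ^ x * w t ^ (q - 1 - x) with hS
  have hSa : AnalyticAt ℂ S 0 := by
    rw [hS]
    apply Finset.analyticAt_fun_sum
    intro x _
    exact (h2.pow x).mul (h1.pow _)
  have hS0 : S 0 ≠ 0 := by
    have : S 0 = q * w 0 ^ (q - 1) := by
      rw [hS]
      simp only [h3]
      rw [Finset.sum_congr rfl (g := fun _ => w 0 ^ (q - 1))]
      · simp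
      · intro x hx
        rw [Finset.mem_range] at hx
        rw [← pow_add]
        congr 1
        omega
    rw [this]
    exact mul_ne_zero (by exact_mod_cast (by omega : q ≠ 0)) (pow_ne_zero _ h0)
  have hord : analyticOrderAt S 0 = ((0 : ℕ) : ℕ∞) := by
    rw [Nat.cast_zero]
    exact (hSa.analyticOrderAt_eq_zero).2 hS0
  apply DV.of_mul hSa hord (h2.sub h1)
  rw [add_zero]
  refine h.congr (Eventually.of_forall fun t => ?_)
  simp only [hS, Pi.sub_apply]
  rw [geom_sum₂_mul]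

/-- roots of nonvanishing germs -/
theorem exists_root {q : ℕ} (hq : 1 ≤ q) {u : ℂ → ℂ} (hu : AnalyticAt ℂ u 0) {c : ℂ}
    (hc : c ^ q = u 0) (h0 : u 0 ≠ 0) :
    ∃ w : ℂ → ℂ, AnalyticAt ℂ w 0 ∧ w 0 = c ∧ ∀ t, w t ^ q = u t := by
  refine ⟨fun t => c * (u t / u 0) ^ ((q : ℂ)⁻¹), ?_, ?_, ?_⟩
  · have h1 : AnalyticAt ℂ (fun t => u t / u 0) 0 := hu.div_const
    have h2 : AnalyticAt ℂ (fun t => (u t / u 0) ^ ((q : ℂ)⁻¹)) 0 := by
      apply h1.cpow analyticAt_const
      rw [div_self h0]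
      exact Complex.one_mem_slitPlane
    exact analyticAt_const.mul h2
  · simp [div_self h0]
  · intro t
    rw [mul_pow, Complex.cpow_nat_inv_pow _ (by omega), hc]
    field_simp

/-- Two germs `G`, `G'` of the same order `m ≥ 1` which agree up to order `A` differ by a change of
parameter which is close to the identity. -/
theorem exists_param {m A : ℕ} (hm : 1 ≤ m) {G G' : ℂ → ℂ} (hG : AnalyticAt ℂ G 0)
    (hG' : AnalyticAt ℂ G' 0) (oG : analyticOrderAt G 0 = m) (oG' : analyticOrderAt G' 0 = m)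
    (h : DV A (fun t => G' t - G t)) :
    ∃ σ : ℂ → ℂ, Bi σ ∧ (∀ᶠ t in 𝓝 (0 : ℂ), G' (σ t) = G t) ∧
      ∃ e, 1 ≤ e ∧ A + 1 ≤ m + e ∧ DV e (fun t => σ t - t) := by
  obtain ⟨u, hu, hu0, hGu⟩ := (hG.analyticOrderAt_eq_natCast).1 oG
  obtain ⟨u', hu', hu0', hGu'⟩ := (hG'.analyticOrderAt_eq_natCast).1 oG'
  simp only [sub_zero, smul_eq_mul] at hGu hGu'
  -- the values at `0`
  obtain ⟨c, hc⟩ := IsAlgClosed.exists_pow_nat_eq (u 0) (n := m) (by omega)
  obtain ⟨c', hc', hcc⟩ : ∃ c', c' ^ m = u' 0 ∧ (m + 1 ≤ A → c' = c) := by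
    by_cases hA : m + 1 ≤ A
    · refine ⟨c, ?_, fun _ => rfl⟩
      rw [hc]
      obtain ⟨g, hg, h1⟩ := dv_iff.1 h
      have h2 : DV (A - m) (fun t => u' t - u t) := by
        have o : analyticOrderAt (fun t : ℂ => t ^ m) 0 = m := by
          refine (AnalyticAt.analyticOrderAt_eq_natCast (by fun_prop)).2
            ⟨fun _ => 1, analyticAt_const, one_ne_zero, by simp⟩
        refine DV.of_mul (g := fun t => t ^ m) (by fun_prop) o (hu'.sub hu) ?_
        rw [show A - m + m = A by omega]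
        refine h.congr ?_
        filter_upwards [hGu, hGu'] with t h3 h4
        rw [h3, h4]
        ring
      have h3 := (h2.mono (show 0 + 1 ≤ A - m by omega)).zero_val
      beta_reduce at h3
      exact (sub_eq_zero.1 h3).symm
    · obtain ⟨c', hc'⟩ := IsAlgClosed.exists_pow_nat_eq (u' 0) (n := m) (by omega)
      exact ⟨c', hc', fun hA' => absurd hA' hA⟩
  have hc0 : c ≠ 0 := by
    rintro rfl
    rw [zero_pow (by omega)] at hc
    exact hu0 hc.symm
  have hc0' : c' ≠ 0 := by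
    rintro rfl
    rw [zero_pow (by omega)] at hc'
    exact hu0' hc'.symm
  obtain ⟨w, hw, hw0, hwu⟩ := exists_root hm hu hc hu0
  obtain ⟨w', hw', hw0', hwu'⟩ := exists_root hm hu' hc' hu0'
  have bi_of : ∀ {v : ℂ → ℂ} {d : ℂ}, AnalyticAt ℂ v 0 → v 0 = d → d ≠ 0 →
      Bi (fun t => t * v t) := by
    intro v d hv hvd hd
    refine ⟨analyticAt_id.mul hv, by simp, ?_⟩
    have h1 : HasDerivAt (fun t : ℂ => t * v t) (1 * v 0 + 0 * deriv v 0) 0 :=
      (hasDerivAt_id (0 : ℂ)).mul hv.differentiableAt.hasDerivAt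
    rw [h1.deriv, hvd]
    simpa using hd
  have hφ : Bi (fun t => t * w t) := bi_of hw hw0 hc0
  have hφ' : Bi (fun t => t * w' t) := bi_of hw' hw0' hc0'
  obtain ⟨ψ, hψ, hψ1, hψ2⟩ := hφ'.inv
  refine ⟨fun t => ψ (t * w t), hψ.comp hφ, ?_, ?_⟩
  · have h1 : ∀ᶠ t in 𝓝 (0 : ℂ), G' t = (t * w' t) ^ m := by
      filter_upwards [hGu'] with t h1
      rw [h1, mul_pow, hwu']
    have h2 : ∀ᶠ t in 𝓝 (0 : ℂ), G t = (t * w t) ^ m := by
      filter_upwards [hGu] with t h1
      rw [h1, mul_pow, hwu]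
    filter_upwards [(hψ.comp hφ).tendsto.eventually h1, h2, hφ.tendsto.eventually hψ1]
      with t h3 h4 h5
    rw [h3, h4, h5]
  · by_cases hA : m + 1 ≤ A
    · refine ⟨A + 1 - m, by omega, by omega, ?_⟩
      have hcc' := hcc hA
      have h1 : DV (A - m) (fun t => w' t ^ m - w t ^ m) := by
        have o : analyticOrderAt (fun t : ℂ => t ^ m) 0 = m := by
          refine (AnalyticAt.analyticOrderAt_eq_natCast (by fun_prop)).2
            ⟨fun _ => 1, analyticAt_const, one_ne_zero, by simp⟩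
        refine DV.of_mul (g := fun t => t ^ m) (by fun_prop) o
          ((hw'.pow m).sub (hw.pow m)) ?_
        rw [show A - m + m = A by omega]
        refine h.congr ?_
        filter_upwards [hGu, hGu'] with t h3 h4
        rw [h3, h4, hwu, hwu']
        ring
      have h2 := dv_root_sub hm hw hw' (by rw [hw0]; exact hc0) (by rw [hw0, hw0', hcc']) h1
      have h3 : DV (A + 1 - m) (fun t => t * w t - t * w' t) := by
        have h4 := (dv_id.mul h2).neg
        rw [show 1 + (A - m) = A + 1 - m by omega] at h4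
        refine h4.congr (Eventually.of_forall fun t => ?_)
        ring
      have h4 := dv_comp_sub (μ := 0) hψ.an (DV.of_an hψ.an.deriv) hφ.an hφ.zero hφ'.an hφ'.zero h3
      rw [zero_add] at h4
      refine h4.congr ?_
      filter_upwards [hψ2] with t ht
      rw [ht]
    · refine ⟨1, le_rfl, by omega, ?_⟩
      have h1 := hψ.comp hφ
      exact dv_one (h1.an.sub analyticAt_id) (by simp [hψ.zero])

/-- If `τ ^ q - t ^ q` is divisible by `t ^ (q + s)`, `s ≥ 1`, then `τ` is a rotation up to order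
`s`. -/
theorem exists_rotation {q s : ℕ} (hq : 1 ≤ q) (hs : 1 ≤ s) {τ : ℂ → ℂ} (hτ : Bi τ)
    (h : DV (q + s) (fun t => τ t ^ q - t ^ q)) :
    ∃ ζ : ℂ, ζ ^ q = 1 ∧ DV (1 + s) (fun t => τ t - ζ * t) := by
  obtain ⟨τ₁, h1, h2⟩ := dv_iff.1 (dv_one hτ.an hτ.zero)
  simp only [pow_one, smul_eq_mul] at h2
  have h3 : DV s (fun t => τ₁ t ^ q - 1) := by
    have o : analyticOrderAt (fun t : ℂ => t ^ q) 0 = q := by
      refine (AnalyticAt.analyticOrderAt_eq_natCast (by fun_prop)).2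
        ⟨fun _ => 1, analyticAt_const, one_ne_zero, by simp⟩
    refine DV.of_mul (g := fun t => t ^ q) (by fun_prop) o ((h1.pow q).sub analyticAt_const) ?_
    rw [add_comm s q]
    refine h.congr ?_
    filter_upwards [h2] with t ht
    rw [ht]
    ring
  have h4 : τ₁ 0 ^ q = 1 := by
    have := (h3.mono (show 0 + 1 ≤ s by omega)).zero_val
    beta_reduce at this
    exact sub_eq_zero.1 this
  refine ⟨τ₁ 0, h4, ?_⟩
  have h5 : τ₁ 0 ≠ 0 := by
    intro h6
    rw [h6, zero_pow (by omega)] at h4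
    exact zero_ne_one h4
  have h6 : DV s (fun t => τ₁ t - τ₁ 0) := by
    refine dv_root_sub (w := fun _ => τ₁ 0) hq analyticAt_const h1 h5 rfl ?_
    refine h3.congr (Eventually.of_forall fun t => ?_)
    simp only [h4]
  have h7 := dv_id.mul h6
  refine h7.congr ?_
  filter_upwards [h2] with t ht
  rw [ht]
  ring

theorem norm_eq_one_of_pow {q : ℕ} (hq : 1 ≤ q) {ζ : ℂ} (h : ζ ^ q = 1) : ‖ζ‖ = 1 :=
  Complex.norm_eq_one_of_pow_eq_one h (by omega)

/-- The final comparison. -/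
theorem norm_coeff {μ s N : ℕ} {F τ : ℂ → ℂ} {ζ η : ℂ} (hζ : ‖ζ‖ = 1) (hF : AnalyticAt ℂ F 0)
    (hF' : DV μ (deriv F)) (hτ : Bi τ) (hs : 1 ≤ s) (h : DV (1 + s) (fun t => τ t - ζ * t))
    (hN : 1 ≤ N) (hN' : N ≤ μ + s) (h2 : DV (N + 1) (fun t => F (τ t) + η * τ t ^ N - F t)) :
    ‖iteratedDeriv N F 0 + η * (N.factorial : ℂ)‖ = ‖iteratedDeriv N F 0‖ := by
  have hζa : AnalyticAt ℂ (fun t : ℂ => ζ * t) 0 := by fun_prop
  have h3 := (dv_comp_sub hF hF' hτ.an hτ.zero hζa (by simp) h).mono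
    (show N + 1 ≤ μ + (1 + s) by omega)
  have h4 := ((dv_pow_sub (i := N) hτ.an hτ.zero hζa (by simp) h).mono
    (show N + 1 ≤ (1 + s) + (N - 1) by omega)).const_mul η
  have h5 : DV (N + 1) (fun t => F (ζ * t) + η * (ζ * t) ^ N - F t) := by
    refine ((h2.sub h3).sub h4).congr (Eventually.of_forall fun t => ?_)
    ring
  set a := iteratedDeriv N F 0 with ha
  -- Taylor expansion of `F`
  obtain ⟨Q, hQ, hFQ⟩ := hF.exists_eventuallyEq_sum_add_pow_mul (N + 1)
  have hζt : Tendsto (fun t : ℂ => ζ * t) (𝓝 0) (𝓝 0) := by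
    have := hζa.continuousAt.tendsto
    simpa using this
  have h6 : DV (N + 1) (fun t => ∑ i ∈ Finset.range (N + 1),
      ((ζ ^ i - 1) * (iteratedDeriv i F 0 / (i.factorial : ℂ)) + if i = N then η * ζ ^ N else 0)
        * t ^ i) := by
    have h7 : DV (N + 1) (fun t => (ζ * t) ^ (N + 1) * Q (ζ * t) - t ^ (N + 1) * Q t) := by
      apply DV.sub
      · have := ((dv_one hζa (by simp)).pow (N + 1)).mul (DV.of_an (an_comp hQ hζa (by simp)))
        exact this.mono (by omega)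
      · have := (dv_id.pow (N + 1)).mul (DV.of_an hQ)
        exact this.mono (by omega)
    refine (h5.sub h7).congr ?_
    filter_upwards [hFQ, hζt.eventually hFQ] with t h8 h9
    rw [h8, h9]
    simp only [smul_eq_mul, add_mul, Finset.sum_add_distrib, ite_mul, zero_mul]
    rw [Finset.sum_ite_eq' (Finset.range (N + 1)) N, if_pos (Finset.self_mem_range_succ N)]
    have h10 : ∑ x ∈ Finset.range (N + 1), (ζ ^ x - 1) * (iteratedDeriv x F 0 / (x.factorial : ℂ))
        * t ^ x = ∑ x ∈ Finset.range (N + 1), (ζ * t) ^ x / (x.factorial : ℂ) * iteratedDeriv x F 0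
          - ∑ x ∈ Finset.range (N + 1), t ^ x / (x.factorial : ℂ) * iteratedDeriv x F 0 := by
      rw [← Finset.sum_sub_distrib]
      apply Finset.sum_congr rfl
      intro x _
      rw [mul_pow]
      ring
    rw [h10, mul_pow]
    ring
  -- the coefficient of `t ^ N`
  have h7 := (natCast_le_analyticOrderAt_iff_iteratedDeriv_eq_zero h6.1).1 h6.2 N (by omega)
  have h8 : iteratedDeriv N (fun t : ℂ => ∑ i ∈ Finset.range (N + 1),
      ((ζ ^ i - 1) * (iteratedDeriv i F 0 / (i.factorial : ℂ)) + if i = N then η * ζ ^ N else 0)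
        * t ^ i) 0 = ((ζ ^ N - 1) * (a / (N.factorial : ℂ)) + η * ζ ^ N) * (N.factorial : ℂ) := by
    simp (disch := fun_prop) only [iteratedDeriv_fun_sum, iteratedDeriv_const_mul,
      iteratedDeriv_fun_pow_zero]
    simp [Finset.sum_ite_eq, ha]
  rw [h8] at h7
  have hN0 : (N.factorial : ℂ) ≠ 0 := by exact_mod_cast Nat.factorial_ne_zero N
  have h9 : ζ ^ N * (a + η * (N.factorial : ℂ)) = a := by
    field_simp at h7
    linear_combination h7
  have h10 := congrArg norm h9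
  rw [norm_mul, norm_pow, hζ, one_pow, one_mul] at h10
  exact h10

end Pool.Agent.T6.H40.MT
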