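import Mathlib
import Pool.Agent.R861.MT.C
import Pool.Agent.T6.H40.MT.Root

/-! Components of the prolongations of a curve: existence, uniqueness, and germs. -/

set_option autoImplicit false

open Filter Topology Pool.Agent.R861.MT

namespace Pool.Agent.T6.H40.MT

variable {n : ℕ}

/-- the components of the prolongations of a curve up to the level `J` -/
structure Lift (i : ℕ → Fin n) (J : ℕ) (p : ℕ → Fin n → ℂ) (V U : ℕ → ℂ → Fin n → ℂ) : Prop where
  anV : ∀ j ≤ J, AnalyticAt ℂ (V j) 0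
  anU : ∀ j ≤ J, AnalyticAt ℂ (U j) 0
  hp : ∀ j ≤ J, V j 0 = p j
  chart : ∀ j, 1 ≤ j → j ≤ J → ∀ᶠ t in 𝓝 (0 : ℂ), V j t (i j) = 1
  rel : ∀ j < J, ∀ᶠ t in 𝓝 (0 : ℂ), U j t = U j t (i (j + 1)) • V (j + 1) t
  der : ∀ j < J, ∀ᶠ t in 𝓝 (0 : ℂ),
    U (j + 1) t = deriv (V (j + 1)) t + Pi.single (i (j + 1)) (U j t (i (j + 1)))
  der0 : ∀ᶠ t in 𝓝 (0 : ℂ), U 0 t = deriv (V 0) t

/-- the components of a curve in `Germ(p)` -/
structure Full (i : ℕ → Fin n) (k : ℕ) (p : ℕ → Fin n → ℂ) (V U : ℕ → ℂ → Fin n → ℂ) : Prop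
    extends Lift i k p V U where
  imm : U k 0 ≠ 0
  reg : ∀ j, 1 ≤ j → j ≤ k → (∀ l, j < l → l ≤ k → p l (i j) = 0) → U k 0 (i j) ≠ 0

variable {i : ℕ → Fin n} {p : ℕ → Fin n → ℂ} {V U V' U' : ℕ → ℂ → Fin n → ℂ}

theorem Full.data {k : ℕ} (D : Full i k p V U) : Data i k p V U :=
  ⟨D.anV, D.anU, D.hp, D.chart, D.rel, D.der, D.imm, D.reg⟩

theorem Lift.mono {J J' : ℕ} (L : Lift i J p V U) (h : J' ≤ J) : Lift i J' p V U :=
  ⟨fun j hj => L.anV j (hj.trans h), fun j hj => L.anU j (hj.trans h),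
    fun j hj => L.hp j (hj.trans h), fun j h1 h2 => L.chart j h1 (h2.trans h),
    fun j hj => L.rel j (lt_of_lt_of_le hj h), fun j hj => L.der j (lt_of_lt_of_le hj h), L.der0⟩

/-- the derivative of the normalised coordinate is zero -/
theorem Lift.deriv_chart {J : ℕ} (L : Lift i J p V U) {j : ℕ} (h1 : 1 ≤ j) (h2 : j ≤ J) :
    ∀ᶠ t in 𝓝 (0 : ℂ), deriv (V j) t (i j) = 0 := by
  filter_upwards [(L.chart j h1 h2).eventually_nhds, (L.anV j h2).eventually_analyticAt]
    with t ht1 ht2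
  rw [← deriv_apply ht2]
  have h3 : (fun s => V j s (i j)) =ᶠ[𝓝 t] fun _ => (1 : ℂ) := ht1
  rw [h3.deriv_eq, deriv_const]

theorem Lift.U_chart {J : ℕ} (L : Lift i J p V U) {j : ℕ} (hj : j < J) :
    ∀ᶠ t in 𝓝 (0 : ℂ), U (j + 1) t (i (j + 1)) = U j t (i (j + 1)) := by
  filter_upwards [L.der j hj, L.deriv_chart (j := j + 1) (by omega) hj] with t h1 h2
  rw [h1, Pi.add_apply, h2, zero_add, Pi.single_eq_same]

theorem Lift.extend {J : ℕ} (L : Lift i J p V U) {V₁ U₁ : ℂ → Fin n → ℂ}
    (hV : AnalyticAt ℂ V₁ 0) (hU : AnalyticAt ℂ U₁ 0) (h0 : V₁ 0 = p (J + 1))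
    (hc : ∀ᶠ t in 𝓝 (0 : ℂ), V₁ t (i (J + 1)) = 1)
    (hr : ∀ᶠ t in 𝓝 (0 : ℂ), U J t = U J t (i (J + 1)) • V₁ t)
    (hd : ∀ᶠ t in 𝓝 (0 : ℂ),
      U₁ t = deriv V₁ t + Pi.single (i (J + 1)) (U J t (i (J + 1)))) :
    Lift i (J + 1) p (Function.update V (J + 1) V₁) (Function.update U (J + 1) U₁) := by
  have e1 : ∀ {W : ℕ → ℂ → Fin n → ℂ} {W₁ : ℂ → Fin n → ℂ} {j : ℕ}, j ≤ J →
      Function.update W (J + 1) W₁ j = W j := fun h =>
    Function.update_of_ne (by omega) _ _
  have e2 : ∀ {W : ℕ → ℂ → Fin n → ℂ} {W₁ : ℂ → Fin n → ℂ},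
      Function.update W (J + 1) W₁ (J + 1) = W₁ := Function.update_self _ _ _
  have cases : ∀ j, j ≤ J + 1 → j ≤ J ∨ j = J + 1 := fun j h => by omega
  refine ⟨?_, ?_, ?_, ?_, ?_, ?_, ?_⟩
  · intro j hj
    rcases cases j hj with h | rfl
    · rw [e1 h]; exact L.anV j h
    · rw [e2]; exact hV
  · intro j hj
    rcases cases j hj with h | rfl
    · rw [e1 h]; exact L.anU j h
    · rw [e2]; exact hU
  · intro j hj
    rcases cases j hj with h | rfl
    · rw [e1 h]; exact L.hp j h
    · rw [e2]; exact h0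
  · intro j hj1 hj
    rcases cases j hj with h | rfl
    · rw [e1 h]; exact L.chart j hj1 h
    · rw [e2]; exact hc
  · intro j hj
    rcases Nat.lt_succ_iff_lt_or_eq.1 hj with h | rfl
    · rw [e1 h.le, e1 (show j + 1 ≤ J by omega)]; exact L.rel j h
    · rw [e1 le_rfl, e2]; exact hr
  · intro j hj
    rcases Nat.lt_succ_iff_lt_or_eq.1 hj with h | rfl
    · rw [e1 h.le, e1 (show j + 1 ≤ J by omega), e1 (show j + 1 ≤ J by omega)]; exact L.der j h
    · rw [e1 le_rfl, e2, e2]; exact hd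
  · rw [e1 (Nat.zero_le _), e1 (Nat.zero_le _)]
    exact L.der0

theorem an_single {f : ℂ → ℂ} (hf : AnalyticAt ℂ f 0) (a : Fin n) :
    AnalyticAt ℂ (fun t => (Pi.single a (f t) : Fin n → ℂ)) 0 :=
  (ContinuousLinearMap.single ℂ (fun _ : Fin n => ℂ) a).analyticAt _ |>.comp hf

/-- Integration from the top. -/
theorem exists_lift (i : ℕ → Fin n) (p : ℕ → Fin n → ℂ) : ∀ (J : ℕ),
    (∀ j, 1 ≤ j → j ≤ J → p j (i j) = 1) → ∀ X : ℂ → Fin n → ℂ, AnalyticAt ℂ X 0 →
    ∃ V U, Lift i J p V U ∧ U J = X := by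
  intro J
  induction J with
  | zero =>
    intro _ X hX
    obtain ⟨F, hF, hF0, hF1⟩ := exists_prim hX (p 0)
    refine ⟨fun _ => F, fun _ => X, ⟨fun _ _ => hF, fun _ _ => hX, ?_, ?_, ?_, ?_, ?_⟩, rfl⟩
    · intro j hj
      rw [Nat.le_zero.1 hj]
      exact hF0
    · intro j h1 h2; omega
    · intro j hj; omega
    · intro j hj; omega
    · filter_upwards [hF1] with t ht
      rw [ht]
  | succ J ih =>
    intro hp X hX
    have hXa := analyticAt_apply hX (i (J + 1))
    obtain ⟨F, hF, hF0, hF1⟩ := exists_prim (hX.sub (an_single hXa (i (J + 1)))) (p (J + 1))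
    have hFc : ∀ᶠ t in 𝓝 (0 : ℂ), F t (i (J + 1)) = 1 := by
      have h1 : (fun t => F t (i (J + 1))) =ᶠ[𝓝 0] fun _ => (1 : ℂ) := by
        apply eq_of_deriv (analyticAt_apply hF _) analyticAt_const
        · rw [hF0]
          exact hp (J + 1) (by omega) le_rfl
        · filter_upwards [hF1, hF.eventually_analyticAt] with t h1 h2
          rw [deriv_apply h2, h1, deriv_const]
          simp
      exact h1
    obtain ⟨V, U, L, hU⟩ := ih (fun j h1 h2 => hp j h1 (by omega))
      (fun t => X t (i (J + 1)) • F t) (hXa.smul hF)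
    have hUJ : ∀ᶠ t in 𝓝 (0 : ℂ), U J t (i (J + 1)) = X t (i (J + 1)) := by
      filter_upwards [hFc] with t ht
      rw [hU]
      simp [ht]
    refine ⟨_, _, L.extend hF hX hF0 hFc ?_ ?_, Function.update_self _ _ _⟩
    · filter_upwards [hUJ] with t ht
      rw [ht, hU]
    · filter_upwards [hUJ, hF1] with t ht ht1
      rw [ht, ht1]
      simp

theorem Lift.ord_g {J : ℕ} (L : Lift i J p V U) {j : ℕ} (hj : j < J) :
    analyticOrderAt (U j) 0 = analyticOrderAt (fun t => U j t (i (j + 1))) 0 := by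
  have h1 : U j =ᶠ[𝓝 0] (fun t => U j t (i (j + 1))) • (V (j + 1)) := L.rel j hj
  have h2 : analyticOrderAt (V (j + 1)) 0 = 0 := by
    rw [analyticOrderAt_eq_zero]
    right
    intro h
    have h3 := (L.chart (j + 1) (by omega) hj).self_of_nhds
    rw [h] at h3
    exact zero_ne_one h3
  conv_lhs => rw [analyticOrderAt_congr h1]
  rw [analyticOrderAt_smul (analyticAt_apply (L.anU j hj.le) _) (L.anV (j + 1) hj), h2, add_zero]

/-- Uniqueness of the components. -/
theorem Lift.unique {J : ℕ} (L : Lift i J p V U) (L' : Lift i J p V' U')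
    (h0 : V 0 =ᶠ[𝓝 0] V' 0) (hU : ∀ j < J, analyticOrderAt (U j) 0 ≠ ⊤) :
    ∀ j ≤ J, V j =ᶠ[𝓝 0] V' j ∧ U j =ᶠ[𝓝 0] U' j := by
  intro j
  induction j with
  | zero =>
    intro _
    refine ⟨h0, ?_⟩
    filter_upwards [L.der0, L'.der0, h0.eventuallyEq_nhds] with t h1 h2 h3
    rw [h1, h2, h3.deriv_eq]
  | succ j ih =>
    intro hj
    obtain ⟨-, h2⟩ := ih (by omega)
    have hV : V (j + 1) =ᶠ[𝓝 0] V' (j + 1) := by
      have h3 : analyticOrderAt ((fun t => U j t (i (j + 1))) • (V (j + 1) - V' (j + 1))) 0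
          = ⊤ := by
        rw [analyticOrderAt_eq_top]
        filter_upwards [h2, L.rel j (by omega), L'.rel j (by omega)] with t h3 h4 h5
        rw [← h3] at h5
        simp only [Pi.smul_apply', Pi.sub_apply]
        rw [smul_sub, ← h4, ← h5, sub_self]
      rw [analyticOrderAt_smul (analyticAt_apply (L.anU j (by omega)) _)
        ((L.anV (j + 1) hj).sub (L'.anV (j + 1) hj)), ← L.ord_g (by omega)] at h3
      rcases WithTop.add_eq_top.1 h3 with h4 | h4
      · exact absurd h4 (hU j (by omega))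
      · have h5 : analyticOrderAt (V (j + 1) - V' (j + 1)) 0 = (⊤ : ℕ∞) := h4
        rw [analyticOrderAt_eq_top] at h5
        filter_upwards [h5] with t ht
        exact sub_eq_zero.1 ht
    refine ⟨hV, ?_⟩
    filter_upwards [L.der j (by omega), L'.der j (by omega), h2, hV.eventuallyEq_nhds]
      with t h3 h4 h5 h6
    rw [h3, h4, h5, h6.deriv_eq]

/-- the sequence of the components of a point -/
def seqOf {k : ℕ} (p : Coord n k) : ℕ → Fin n → ℂ := fun j => if h : j < k + 1 then p ⟨j, h⟩ else 0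

theorem exists_full {k : ℕ} {p : Coord n k} {γ : ℂ → Fin n → ℂ} {c : ℂ → Coord n k}
    (hc : AnalyticAt ℂ c 0)
    (hcc : ∀ᶠ t in 𝓝 (0 : ℂ), InChart i (c t) ∧ c t 0 = γ t)
    (hprol : IsProlongation i k c) (hc0 : c 0 = p) (hreg : IsRegularVector i p (deriv c 0)) :
    ∃ V U : ℕ → ℂ → Fin n → ℂ, Full i k (seqOf p) V U ∧ V 0 =ᶠ[𝓝 0] γ := by
  set V : ℕ → ℂ → Fin n → ℂ := fun j t => if h : j < k + 1 then c t ⟨j, h⟩ else 0 with hV
  have hchart : ∀ᶠ t in 𝓝 (0 : ℂ), InChart i (c t) := hcc.mono fun t ht => ht.1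
  have hVc : ∀ (j : Fin (k + 1)) (t : ℂ), c t j = V j t := by
    intro j t
    rw [hV]
    simp only
    rw [dif_pos j.2]
  have hVa : ∀ j ≤ k, AnalyticAt ℂ (V j) 0 := by
    intro j hj
    have h1 : V j = fun t => c t ⟨j, by omega⟩ := by
      funext t
      rw [hVc]
    rw [h1]
    exact (ContinuousLinearMap.proj (R := ℂ) (φ := fun _ : Fin (k + 1) => Fin n → ℂ)
      ⟨j, by omega⟩).analyticAt _ |>.comp hc
  obtain ⟨hrel, hder⟩ := relations k c V hVc hc hchart hprol
  have hp0 : InChart i p := hc0 ▸ hchart.self_of_nhds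
  have hder0 : deriv c 0 = frame i k p (ctrl i V k 0) := by
    rw [hder.self_of_nhds, hc0]
  rw [hder0] at hreg
  refine ⟨V, ctrl i V, ⟨⟨hVa, analyticAt_ctrl i hVa, ?_, ?_, hrel, ?_, ?_⟩, ?_, ?_⟩, ?_⟩
  · intro j hj
    rw [hV]
    simp only [seqOf]
    rw [dif_pos (by omega), dif_pos (by omega), hc0]
  · intro j h1 h2
    filter_upwards [hchart] with t ht
    have h3 := ht ⟨j, by omega⟩ (by
      intro h
      have := congrArg Fin.val h
      simp at this
      omega)
    rw [hVc] at h3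
    exact h3
  · intro j _
    exact Eventually.of_forall fun t => rfl
  · exact Eventually.of_forall fun t => rfl
  · intro h
    apply hreg.1
    rw [h, frame_zero]
  · intro j h1 h2 h3
    apply regular_coord h1 h2 hp0 _ hreg
    intro l hl
    have := h3 l hl (by have := l.2; omega)
    simp only [seqOf] at this
    rw [dif_pos l.2] at this
    exact this
  · filter_upwards [hcc] with t ht
    rw [← ht.2, hVc]
    rfl

/-- the curve in the coordinates of the chart -/
def curveOf (V : ℕ → ℂ → Fin n → ℂ) (J : ℕ) : ℂ → Coord n J := fun t j => V j t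

theorem analyticAt_curveOf {J : ℕ} (L : Lift i J p V U) : AnalyticAt ℂ (curveOf V J) 0 := by
  apply AnalyticAt.pi
  intro j
  exact L.anV j (by have := j.2; omega)

theorem prolong_curveOf : ∀ (J : ℕ), Lift i J p V U → IsProlongation i J (curveOf V J) ∧
    ∀ᶠ t in 𝓝 (0 : ℂ), deriv (curveOf V J) t = frame i J (curveOf V J t) (U J t) := by
  intro J
  induction J with
  | zero =>
    intro L
    refine ⟨trivial, ?_⟩
    filter_upwards [L.der0, (analyticAt_curveOf L).eventually_analyticAt] with t h1 h2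
    funext j
    have h3 := (hasDerivAt_pi.1 h2.differentiableAt.hasDerivAt j).deriv
    rw [← h3, Fin.eq_zero j]
    change deriv (V 0) t = frame i 0 (curveOf V 0 t) (U 0 t) 0
    rw [← h1]
    rfl
  | succ J ih =>
    intro L
    have L₀ := L.mono (Nat.le_succ J)
    obtain ⟨h1, h2⟩ := ih L₀
    have hinit : ∀ t, (Fin.init (curveOf V (J + 1) t) : Coord n J) = curveOf V J t := by
      intro t
      rfl
    have hlast : ∀ t, curveOf V (J + 1) t (Fin.last (J + 1)) = V (J + 1) t := by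
      intro t
      rfl
    refine ⟨⟨h1, ?_⟩, ?_⟩
    · filter_upwards [h2, L.rel J (by omega)] with t h3 h4
      refine ⟨U J t (i (J + 1)), ?_⟩
      change deriv (curveOf V J) t = _
      rw [h3, hinit, hlast, ← frame_smul, ← h4]
    · filter_upwards [h2, L.rel J (by omega), L.der J (by omega), L.U_chart (j := J) (by omega),
        (analyticAt_curveOf L).eventually_analyticAt,
        (analyticAt_curveOf L₀).eventually_analyticAt] with t h3 h4 h5 h6 h7 h8
      apply coord_ext
      · rw [frame_succ_init, hinit, hlast, h6, ← h4, ← h3]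
        funext j
        have h9 := (hasDerivAt_pi.1 h7.differentiableAt.hasDerivAt j.castSucc).deriv
        have h10 := (hasDerivAt_pi.1 h8.differentiableAt.hasDerivAt j).deriv
        change deriv (curveOf V (J + 1)) t j.castSucc = _
        rw [← h9, ← h10]
        rfl
      · rw [frame_succ_last, h6]
        have h9 := (hasDerivAt_pi.1 h7.differentiableAt.hasDerivAt (Fin.last (J + 1))).deriv
        rw [← h9, h5, add_sub_cancel_right]
        rfl

/-- The points of a critical submanifold, and the vectors tangent to it. -/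
theorem critical_tangent' {k : ℕ} {p : Coord n k} {M : Set (Coord n k)}
    (hM : M ∈ criticalSubmanifolds i k p) :
    ∃ j, 1 ≤ j ∧ j ≤ k ∧ (∀ q ∈ M, ∀ l : Fin (k + 1), j < (l : ℕ) → q l (i j) = 0) ∧
      ∀ q ∈ M, ∀ u : Fin n → ℂ, TangentTo M q (frame i k q u) → u (i j) = 0 := by
  induction k with
  | zero => exact absurd hM (Set.notMem_empty _)
  | succ k ih =>
    rcases hM with rfl | ⟨M', hM', rfl, -⟩
    · refine ⟨k + 1, by omega, le_rfl, ?_, ?_⟩
      · intro q _ l hl
        have := l.2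
        omega
      rintro q ⟨hq1, hq2⟩ u ⟨c, hc1, hc2, hc3, hc4⟩
      have h1 : (Fin.init (frame i (k + 1) q u) : Coord n k) = 0 := by
        rw [← hc3]
        funext l
        have h2 := hc1.differentiableAt.hasDerivAt
        have h3 := (hasDerivAt_pi.1 h2 l.castSucc).deriv
        change deriv c 0 l.castSucc = 0
        rw [← h3]
        have h4 : (fun s => c s l.castSucc) =ᶠ[𝓝 0] fun _ => (Fin.init p : Coord n k) l := by
          filter_upwards [hc4] with s hs
          exact congrFun hs.2 l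
        rw [h4.deriv_eq, deriv_const]
      obtain ⟨hc1', hc2'⟩ := inChart_succ.1 hq1
      rw [frame_succ_init] at h1
      have h2 := frame_eq_zero hc1' h1
      have h3 := congrFun h2 (i (k + 1))
      rw [Pi.smul_apply, hc2', smul_eq_mul, mul_one] at h3
      exact h3
    · obtain ⟨j, hj1, hj2, hj4, hj3⟩ := ih hM'
      have hlast : ∀ q' ∈ prolong i M', q' (Fin.last (k + 1)) (i j) = 0 := by
        rintro q' ⟨-, h2, h3⟩
        exact hj3 _ h2 _ h3
      refine ⟨j, hj1, by omega, ?_, ?_⟩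
      · intro q hq l hl
        induction l using Fin.lastCases with
        | last => exact hlast q hq
        | cast l => exact hj4 _ hq.2.1 l hl
      rintro q hq u ⟨c, hc1, hc2, hc3, hc4⟩
      have hne : i j ≠ i (k + 1) := by
        intro h
        have h1 := hlast q hq
        rw [h, (inChart_succ.1 hq.1).2] at h1
        exact one_ne_zero h1
      have h1 : frame i (k + 1) q u (Fin.last (k + 1)) (i j) = 0 := by
        rw [← hc3]
        have h2 := hc1.differentiableAt.hasDerivAt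
        have h3 := (hasDerivAt_pi.1 (hasDerivAt_pi.1 h2 (Fin.last (k + 1))) (i j)).deriv
        rw [← h3]
        have h4 : (fun s => c s (Fin.last (k + 1)) (i j)) =ᶠ[𝓝 0] fun _ => (0 : ℂ) := by
          filter_upwards [hc4] with s hs
          exact hlast _ hs
        rw [h4.deriv_eq, deriv_const]
      rw [frame_succ_last, Pi.sub_apply, Pi.single_eq_of_ne hne, sub_zero] at h1
      exact h1

theorem Full.germ {k : ℕ} {p : Coord n k} (hp : InChart i p) (D : Full i k (seqOf p) V U) :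
    V 0 ∈ Germ i p := by
  have hc := analyticAt_curveOf D.toLift
  obtain ⟨h1, h2⟩ := prolong_curveOf k D.toLift
  have hseq : ∀ j : Fin (k + 1), seqOf p j = p j := by
    intro j
    simp only [seqOf]
    rw [dif_pos j.2]
  have hc0 : curveOf V k 0 = p := by
    funext j
    rw [← hseq]
    exact D.hp j (by have := j.2; omega)
  have hreg : IsRegularVector i p (deriv (curveOf V k) 0) := by
    rw [h2.self_of_nhds, hc0]
    refine ⟨fun h => D.imm (frame_eq_zero hp h), ?_⟩
    intro M hM hT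
    have hpM : p ∈ M := by
      obtain ⟨c, _, h3, _, h4⟩ := hT
      have := h4.self_of_nhds
      rwa [h3] at this
    obtain ⟨j, hj1, hj2, hj3, hj4⟩ := critical_tangent' hM
    refine D.reg j hj1 hj2 ?_ (hj4 p hpM _ hT)
    intro l hl hlk
    have := hj3 p hpM ⟨l, by omega⟩ hl
    rw [← hseq] at this
    exact this
  refine ⟨D.anV 0 (Nat.zero_le k), ?_, curveOf V k, hc, ?_, h1, hc0, hreg⟩
  · intro h
    have h3 := ord_ne_top D.data k 0 (by omega)
    apply h3
    rw [analyticOrderAt_eq_top]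
    have h4 : V 0 =ᶠ[𝓝 0] fun _ => V 0 0 := h
    filter_upwards [D.der0, h4.eventuallyEq_nhds] with t h5 h6
    rw [h5, h6.deriv_eq, deriv_const]
  · have h3 : ∀ᶠ t in 𝓝 (0 : ℂ), ∀ j : Fin (k + 1), j ≠ 0 → V j t (i j) = 1 := by
      rw [eventually_all]
      intro j
      by_cases hj : j = 0
      · exact Eventually.of_forall fun t h => absurd hj h
      · have hj1 : 1 ≤ (j : ℕ) := by
          rcases Nat.eq_zero_or_pos (j : ℕ) with h | h
          · exact absurd (Fin.ext h) hj
          · exact h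
        filter_upwards [D.chart j hj1 (by have := j.2; omega)] with t ht _
        exact ht
    filter_upwards [h3] with t ht
    exact ⟨ht, rfl⟩

end Pool.Agent.T6.H40.MT
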