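import Mathlib
import Pool.Agent.T6.H40.MT.Lift

/-! Two curves in `Germ(p)` are close up to a change of parameter. -/

set_option autoImplicit false

open Filter Topology Pool.Agent.R861.MT

namespace Pool.Agent.T6.H40.MT

variable {n : ℕ}

/-- the velocities agree up to order `w` after a change of parameter -/
def Contact (w : ℕ) (U U' : ℂ → Fin n → ℂ) : Prop :=
  ∃ τ : ℂ → ℂ, Bi τ ∧ DV w (fun t => deriv τ t • U' (τ t) - U t)

theorem dv_single {w : ℕ} {f : ℂ → ℂ} (hf : DV w f) (a : Fin n) :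
    DV w (fun t => (Pi.single a (f t) : Fin n → ℂ)) := by
  rw [dv_pi]
  intro c
  by_cases h : c = a
  · subst h
    simpa using hf
  · simp only [Pi.single_eq_of_ne h]
    exact dv_zero

theorem order_deriv_ne {τ : ℂ → ℂ} (hτ : Bi τ) : analyticOrderAt (deriv τ) 0 = 0 :=
  (hτ.an.deriv.analyticOrderAt_eq_zero).2 hτ.ne

theorem order_of_sub {f g : ℂ → ℂ} {μ w : ℕ} (hg : analyticOrderAt g 0 = μ) (hw : μ < w)
    (h : DV w (fun t => f t - g t)) : analyticOrderAt f 0 = μ := by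
  have h1 : analyticOrderAt g 0 < analyticOrderAt (fun t => f t - g t) 0 := by
    rw [hg]
    exact lt_of_lt_of_le (by exact_mod_cast hw) h.2
  have h2 := analyticOrderAt_add_eq_left_of_lt h1
  rw [hg] at h2
  rw [← h2]
  congr 1
  funext t
  simp

theorem prim_order {g G : ℂ → ℂ} {μ : ℕ} (hG : AnalyticAt ℂ G 0) (h0 : G 0 = 0)
    (hd : deriv G =ᶠ[𝓝 0] g) (hg : analyticOrderAt g 0 = μ) :
    analyticOrderAt G 0 = ((μ + 1 : ℕ) : ℕ∞) := by
  have h1 : analyticOrderAt (deriv G) 0 = μ := by rw [analyticOrderAt_congr hd, hg]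
  have := (analyticOrderAt_deriv_eq_iff hG h0).2 h1
  rw [this]
  rfl

/-- One step down. -/
theorem step_down {a : Fin n} {μ μ₁ w : ℕ} {U U₁ V U' U₁' V' : ℂ → Fin n → ℂ}
    (aU : AnalyticAt ℂ U 0) (aU₁ : AnalyticAt ℂ U₁ 0) (aV : AnalyticAt ℂ V 0)
    (aU' : AnalyticAt ℂ U' 0) (aU₁' : AnalyticAt ℂ U₁' 0) (aV' : AnalyticAt ℂ V' 0)
    (hV0 : V' 0 = V 0)
    (hr : ∀ᶠ t in 𝓝 (0 : ℂ), U t = U t a • V t)
    (hr' : ∀ᶠ t in 𝓝 (0 : ℂ), U' t = U' t a • V' t)
    (hc : ∀ᶠ t in 𝓝 (0 : ℂ), deriv V t a = 0)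
    (hc' : ∀ᶠ t in 𝓝 (0 : ℂ), deriv V' t a = 0)
    (hd : ∀ᶠ t in 𝓝 (0 : ℂ), U₁ t = deriv V t + Pi.single a (U t a))
    (hd' : ∀ᶠ t in 𝓝 (0 : ℂ), U₁' t = deriv V' t + Pi.single a (U' t a))
    (oU : analyticOrderAt (fun t => U t a) 0 = μ)
    (oU' : analyticOrderAt (fun t => U' t a) 0 = μ ∨ μ < w)
    (hU₁ : DV μ₁ U₁) (hμ : μ₁ ≤ μ) (h : Contact w U₁ U₁') : Contact (w + μ₁ + 1) U U' := by
  obtain ⟨τ, hτ, hτ1⟩ := h
  set g : ℂ → ℂ := fun t => U t a with hg
  set gh : ℂ → ℂ := fun t => deriv τ t * U' (τ t) a with hgh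
  set Vh : ℂ → Fin n → ℂ := fun t => V' (τ t) with hVh
  have ag : AnalyticAt ℂ g 0 := analyticAt_apply aU a
  have agh : AnalyticAt ℂ gh 0 := hτ.an.deriv.mul (an_comp (analyticAt_apply aU' a) hτ.an hτ.zero)
  have aVh : AnalyticAt ℂ Vh 0 := an_comp aV' hτ.an hτ.zero
  -- the difference of the factors
  have d1 : DV w (fun t => gh t - g t) := by
    refine (dv_pi.1 hτ1 a).congr ?_
    filter_upwards [hτ.tendsto.eventually hd', hτ.tendsto.eventually hc', hd, hc]
      with t h1 h2 h3 h4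
    simp only [Pi.sub_apply, Pi.smul_apply, smul_eq_mul]
    rw [h1, h3]
    simp only [Pi.add_apply, Pi.single_eq_same, h2, h4, zero_add]
    rfl
  have dVh : ∀ᶠ t in 𝓝 (0 : ℂ), deriv Vh t = deriv τ t • deriv V' (τ t) := Bi.deriv_comp aV' hτ
  have d2 : DV w (fun t => deriv Vh t - deriv V t) := by
    refine (hτ1.sub (dv_single d1 a)).congr ?_
    filter_upwards [hτ.tendsto.eventually hd', hd, dVh] with t h1 h2 h3
    rw [h1, h2, h3]
    have h4 : (Pi.single a (gh t - g t) : Fin n → ℂ)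
        = deriv τ t • Pi.single a (U' (τ t) a) - Pi.single a (U t a) := by
      rw [← Pi.single_smul, ← Pi.single_sub]
      rfl
    rw [h4, smul_add]
    abel
  have d3 : DV (w + 1) (fun t => Vh t - V t) := by
    have aS : AnalyticAt ℂ (fun t => Vh t - V t) 0 := aVh.sub aV
    apply DV.of_deriv aS
    · simp only [hVh, hτ.zero, hV0, sub_self]
    · refine d2.congr ?_
      filter_upwards [aVh.eventually_analyticAt, aV.eventually_analyticAt] with t h1 h2
      rw [deriv_fun_sub h1.differentiableAt h2.differentiableAt]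
  -- the orders
  have oG : analyticOrderAt g 0 = μ := oU
  have oGh : analyticOrderAt gh 0 = μ := by
    rcases oU' with h1 | h1
    · have h2 : gh = deriv τ * (fun t => U' (τ t) a) := rfl
      rw [h2, analyticOrderAt_mul hτ.an.deriv (an_comp (analyticAt_apply aU' a) hτ.an hτ.zero),
        order_deriv_ne hτ, zero_add,
        Bi.order_comp (f := fun t => U' t a) hτ, h1]
    · exact order_of_sub oG h1 d1
  -- primitives
  obtain ⟨G, aG, G0, hG⟩ := exists_prim ag 0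
  obtain ⟨Gh, aGh, Gh0, hGh⟩ := exists_prim agh 0
  have oPG := prim_order aG G0 hG oG
  have oPGh := prim_order aGh Gh0 hGh oGh
  have d4 : DV (w + 1) (fun t => Gh t - G t) := by
    have aS : AnalyticAt ℂ (fun t => Gh t - G t) 0 := aGh.sub aG
    apply DV.of_deriv aS
    · simp only [G0, Gh0, sub_self]
    · refine d1.congr ?_
      filter_upwards [aGh.eventually_analyticAt, aG.eventually_analyticAt, hG, hGh]
        with t h1 h2 h3 h4
      rw [deriv_fun_sub h1.differentiableAt h2.differentiableAt, h3, h4]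
  obtain ⟨σ, hσ, hσ1, e, he1, he2, hσ2⟩ := exists_param (by omega) aG aGh oPG oPGh d4
  refine ⟨fun t => τ (σ t), hτ.comp hσ, ?_⟩
  -- the factor becomes `g`
  have hfac : ∀ᶠ t in 𝓝 (0 : ℂ), deriv σ t * gh (σ t) = g t := by
    have h1 : ∀ᶠ t in 𝓝 (0 : ℂ), deriv (fun s => Gh (σ s)) t = deriv σ t • deriv Gh (σ t) :=
      Bi.deriv_comp aGh hσ
    have h2 : (fun t => Gh (σ t)) =ᶠ[𝓝 0] G := hσ1
    filter_upwards [h1, h2.eventuallyEq_nhds, hG, hσ.tendsto.eventually hGh] with t h3 h4 h5 h6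
    rw [← h5, ← h4.deriv_eq, h3, h6, smul_eq_mul]
  have hchain : ∀ᶠ t in 𝓝 (0 : ℂ), deriv (fun s => τ (σ s)) t = deriv σ t * deriv τ (σ t) := by
    filter_upwards [Bi.deriv_comp hτ.an hσ] with t ht
    rw [ht, smul_eq_mul]
  have hτσ : Tendsto (fun t => τ (σ t)) (𝓝 0) (𝓝 0) := (hτ.comp hσ).tendsto
  have hμ₁ : DV μ₁ (deriv V) := by
    have h1 : DV μ₁ (fun t => (Pi.single a (g t) : Fin n → ℂ)) :=
      dv_single ((dv_of_order ag oG).mono hμ) a
    refine (hU₁.sub h1).congr ?_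
    filter_upwards [hd] with t ht
    rw [ht, add_sub_cancel_right]
  have t1 : DV (w + μ₁ + 1) (fun t => g t • (Vh (σ t) - V (σ t))) :=
    ((dv_of_order ag oG).smul (d3.comp hσ.an hσ.zero)).mono (by omega)
  have t2 : DV (w + μ₁ + 1) (fun t => g t • (V (σ t) - V t)) :=
    ((dv_of_order ag oG).smul (dv_comp_sub aV hμ₁ hσ.an hσ.zero analyticAt_id rfl hσ2)).mono
      (by omega)
  refine (t1.add t2).congr ?_
  filter_upwards [hτσ.eventually hr', hr, hchain, hfac] with t h1 h2 h3 h4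
  rw [h3, h1, smul_smul, mul_assoc]
  have h5 : deriv τ (σ t) * U' (τ (σ t)) a = gh (σ t) := rfl
  rw [h5, h4]
  conv_rhs => rw [h2]
  change g t • (Vh (σ t) - V (σ t)) + g t • (V (σ t) - V t) = g t • Vh (σ t) - g t • V t
  rw [smul_sub, smul_sub]
  abel

variable {i : ℕ → Fin n} {p : ℕ → Fin n → ℂ} {V U V' U' : ℕ → ℂ → Fin n → ℂ} {k : ℕ}

theorem Lift.step {J : ℕ} (L : Lift i J p V U) (L' : Lift i J p V' U') {μ : ℕ → ℕ} {j w : ℕ}
    (hj : j < J) (o : analyticOrderAt (U j) 0 = μ j) (o1 : analyticOrderAt (U (j + 1)) 0 = μ (j + 1))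
    (o' : analyticOrderAt (U' j) 0 = μ j ∨ μ j < w)
    (h : Contact w (U (j + 1)) (U' (j + 1))) : Contact (w + μ (j + 1) + 1) (U j) (U' j) := by
  refine step_down (a := i (j + 1)) (μ := μ j) (L.anU j hj.le) (L.anU (j + 1) hj)
    (L.anV (j + 1) hj) (L'.anU j hj.le) (L'.anU (j + 1) hj) (L'.anV (j + 1) hj) ?_ (L.rel j hj)
    (L'.rel j hj) (L.deriv_chart (by omega) hj) (L'.deriv_chart (by omega) hj) (L.der j hj)
    (L'.der j hj) ?_ ?_ (dv_of_order (L.anU (j + 1) hj) o1) ?_ h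
  · rw [L.hp (j + 1) hj, L'.hp (j + 1) hj]
  · rw [← L.ord_g hj, o]
  · rcases o' with h1 | h1
    · left
      rw [← L'.ord_g hj, h1]
    · right; exact h1
  · -- the orders decrease
    have h1 : analyticOrderAt (fun t => U (j + 1) t (i (j + 1))) 0
        = analyticOrderAt (fun t => U j t (i (j + 1))) 0 :=
      analyticOrderAt_congr (L.U_chart hj)
    have h2 : DV (μ (j + 1)) (fun t => U (j + 1) t (i (j + 1))) :=
      dv_pi.1 (dv_of_order (L.anU (j + 1) hj) o1) _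
    have h3 := h2.2
    rw [h1, ← L.ord_g hj, o] at h3
    exact_mod_cast h3

/-- the order of contact at the level `j` -/
def Bs (μ : ℕ → ℕ) (k j : ℕ) : ℕ := ∑ x ∈ Finset.Ico (j + 1) (k + 1), (μ x + 1)

theorem Bs_succ {μ : ℕ → ℕ} {k j : ℕ} (hj : j < k) :
    Bs μ k j = Bs μ k (j + 1) + μ (j + 1) + 1 := by
  unfold Bs
  rw [Finset.sum_eq_sum_Ico_succ_bot (show j + 1 < k + 1 by omega)]
  ring

theorem Bs_self (μ : ℕ → ℕ) (k : ℕ) : Bs μ k k = 0 := by
  unfold Bs
  simp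

/-- Two curves in `Germ(p)`. -/
theorem contact_all (D : Full i k p V U) (D' : Full i k p V' U') {μ : ℕ → ℕ}
    (hμ : ∀ j ≤ k, analyticOrderAt (U j) 0 = μ j) :
    ∀ d j, j + d = k → Contact (Bs μ k j) (U j) (U' j) := by
  intro d
  induction d with
  | zero =>
    intro j hj
    rw [add_zero] at hj
    subst hj
    rw [Bs_self]
    refine ⟨fun t => t, bi_id, DV.of_an ?_⟩
    simp only [deriv_id'', one_smul]
    exact (D'.anU j le_rfl).sub (D.anU j le_rfl)
  | succ d ih =>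
    intro j hj
    have h1 := ih (j + 1) (by omega)
    rw [Bs_succ (show j < k by omega)]
    refine D.toLift.step D'.toLift (by omega) (hμ j (by omega)) (hμ (j + 1) (by omega)) ?_ h1
    left
    rw [← ord_eq D.data D'.data (k - j) j (by omega), hμ j (by omega)]

end Pool.Agent.T6.H40.MT
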