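import Mathlib
import Pool.Agent.T6.H40.MT.Down

/-! The orders of the velocities of the prolongations. -/

set_option autoImplicit false

open Filter Topology Pool.Agent.R861.MT

namespace Pool.Agent.T6.H40.MT

variable {n : ℕ} {i : ℕ → Fin n} {p : ℕ → Fin n → ℂ} {V U V' U' : ℕ → ℂ → Fin n → ℂ} {k : ℕ}

theorem exists_mu (D : Full i k p V U) :
    ∃ μ : ℕ → ℕ, (∀ j ≤ k, analyticOrderAt (U j) 0 = μ j) ∧ μ k = 0 := by
  refine ⟨fun j => (analyticOrderAt (U j) 0).toNat, fun j hj => ?_, ?_⟩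
  · rw [ENat.natCast_toNat]
    exact ord_ne_top D.data (k - j) j (by omega)
  · have : analyticOrderAt (U k) 0 = 0 := analyticOrderAt_eq_zero.2 (Or.inr D.imm)
    simp [this]

theorem mu_anti {J : ℕ} (L : Lift i J p V U) {μ : ℕ → ℕ} {j : ℕ} (hj : j < J)
    (o : analyticOrderAt (U j) 0 = μ j) (o1 : analyticOrderAt (U (j + 1)) 0 = μ (j + 1)) :
    μ (j + 1) ≤ μ j := by
  have h1 : analyticOrderAt (fun t => U (j + 1) t (i (j + 1))) 0
      = analyticOrderAt (fun t => U j t (i (j + 1))) 0 :=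
    analyticOrderAt_congr (L.U_chart hj)
  have h2 : DV (μ (j + 1)) (fun t => U (j + 1) t (i (j + 1))) :=
    dv_pi.1 (dv_of_order (L.anU (j + 1) hj) o1) _
  have h3 := h2.2
  rw [h1, ← L.ord_g hj, o] at h3
  exact_mod_cast h3

theorem mu_prev (D : Full i k p V U) {μ : ℕ → ℕ} {j : ℕ} (hj : j + 1 = k)
    (o : analyticOrderAt (U j) 0 = μ j) : μ j = 0 := by
  have h1 : analyticOrderAt (fun t => U (j + 1) t (i (j + 1))) 0
      = analyticOrderAt (fun t => U j t (i (j + 1))) 0 :=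
    analyticOrderAt_congr (D.U_chart (by omega))
  have h2 : analyticOrderAt (fun t => U (j + 1) t (i (j + 1))) 0 = 0 := by
    apply analyticOrderAt_eq_zero.2
    right
    subst hj
    exact D.reg (j + 1) (by omega) le_rfl (fun l h1 h2 => by omega)
  rw [h2, ← D.ord_g (by omega), o] at h1
  exact_mod_cast h1.symm

/-- the sum of the multiplicities -/
def Ws (μ : ℕ → ℕ) (k j : ℕ) : ℕ := ∑ x ∈ Finset.Ico j k, (μ x + 1)

theorem Ws_succ {μ : ℕ → ℕ} {k j : ℕ} (hj : j < k) : Ws μ k j = Ws μ k (j + 1) + μ j + 1 := by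
  unfold Ws
  rw [Finset.sum_eq_sum_Ico_succ_bot hj]
  ring

theorem Ws_self (μ : ℕ → ℕ) (k : ℕ) : Ws μ k k = 0 := by
  unfold Ws
  simp

theorem Bs_eq {μ : ℕ → ℕ} {k j : ℕ} (hj : j < k) (hk : μ k = 0) :
    Bs μ k j = Ws μ k (j + 1) + 1 := by
  unfold Bs Ws
  rw [Finset.sum_Ico_succ_top (by omega), hk]

theorem mu_bound (D : Full i k p V U) {μ : ℕ → ℕ}
    (hμ : ∀ j ≤ k, analyticOrderAt (U j) 0 = μ j) (hk : μ k = 0) {j : ℕ} (hj : j < k) :
    μ j + 1 ≤ Bs μ k j := by
  have inner : ∀ e l, l + e = k → j + 1 ≤ l → (∀ l', j + 1 < l' → l' ≤ l →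
      p l' (i (j + 1)) = 0) → analyticOrderAt (fun t => U l t (i (j + 1))) 0 ≤ (Ws μ k l : ℕ) := by
    intro e
    induction e with
    | zero =>
      intro l hl hjl hz
      rw [add_zero] at hl
      subst hl
      have hA : analyticOrderAt (fun t => U l t (i (j + 1))) 0 = 0 :=
        analyticOrderAt_eq_zero.2 (Or.inr (D.reg (j + 1) (by omega) hjl hz))
      rw [hA]
      exact bot_le
    | succ e ihe =>
      intro l hl hjl hz
      have hlk : l < k := by omega
      rw [D.data.ord_coord hlk, hμ l hlk.le, Ws_succ hlk]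
      by_cases hm : p (l + 1) (i (j + 1)) = 0
      · rw [D.data.ord_V_eq hlk hm]
        have h1 := ihe (l + 1) (by omega) (by omega) (by
          intro l' h1 h2
          rcases Nat.lt_or_ge l l' with h3 | h3
          · have : l' = l + 1 := by omega
            rw [this]; exact hm
          · exact hz l' h1 h3)
        calc (μ l : ℕ∞) + (analyticOrderAt (fun t => U (l + 1) t (i (j + 1))) 0 + 1)
            ≤ (μ l : ℕ∞) + ((Ws μ k (l + 1) : ℕ) + 1) := by gcongr
          _ = ((Ws μ k (l + 1) + μ l + 1 : ℕ) : ℕ∞) := by push_cast; ring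
      · rw [D.data.ord_V_ne hlk hm, add_zero]
        exact_mod_cast (by omega : μ l ≤ Ws μ k (l + 1) + μ l + 1)
  have h1 := inner (k - (j + 1)) (j + 1) (by omega) le_rfl (fun l' h1 h2 => by omega)
  rw [D.data.ord_step_same hj, ← D.data.ord_U hj, hμ j hj.le] at h1
  have h2 : μ j ≤ Ws μ k (j + 1) := by exact_mod_cast h1
  rw [Bs_eq hj hk]
  omega

/-- the first drop of the multiplicities -/
theorem exists_drop (D : Full i k p V U) {μ : ℕ → ℕ}
    (hμ : ∀ j ≤ k, analyticOrderAt (U j) 0 = μ j) (hk : μ k = 0) (h0 : 1 ≤ μ 0) :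
    ∃ J, J + 1 < k ∧ μ (J + 1) < μ 0 ∧ ∀ j ≤ J, μ j = μ 0 := by
  classical
  have hk0 : 1 ≤ k := by
    rcases Nat.eq_zero_or_pos k with h | h
    · subst h; omega
    · exact h
  have hprev : μ (k - 1) = 0 := mu_prev D (by omega) (hμ (k - 1) (by omega))
  have hex : ∃ j, μ j < μ 0 := ⟨k - 1, by omega⟩
  have hJ := Nat.find_spec hex
  have hmin : ∀ j < Nat.find hex, ¬ μ j < μ 0 := fun j hj => Nat.find_min hex hj
  have hle : Nat.find hex ≤ k - 1 := Nat.find_min' hex (by omega)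
  have hpos : Nat.find hex ≠ 0 := by
    intro h
    rw [h] at hJ
    exact lt_irrefl _ hJ
  have hanti : ∀ j ≤ k, μ j ≤ μ 0 := by
    intro j
    induction j with
    | zero => intro _; exact le_rfl
    | succ j ih =>
      intro hj
      exact (mu_anti D.toLift (by omega) (hμ j (by omega)) (hμ (j + 1) hj)).trans (ih (by omega))
  refine ⟨Nat.find hex - 1, by omega, ?_, ?_⟩
  · rw [Nat.sub_add_cancel (by omega)]
    exact hJ
  · intro j hj
    have h1 := hmin j (by omega)
    have h2 := hanti j (by omega)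
    omega

end Pool.Agent.T6.H40.MT
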