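import Mathlib
import Pool.Agent.T6.H40.MT.Ords

/-! Perturbations of a curve in `Germ(p)`, from below to above. -/

set_option autoImplicit false

open Filter Topology Pool.Agent.R861.MT

namespace Pool.Agent.T6.H40.MT

variable {n : ℕ}

theorem order_eq_zero_of_mul {g : ℂ → ℂ} {f : ℂ → ℂ} {μ : ℕ} (ag : AnalyticAt ℂ g 0)
    (og : analyticOrderAt g 0 = μ) (af : AnalyticAt ℂ f 0)
    (h : ∀ᶠ t in 𝓝 (0 : ℂ), g t * f t = 0) : ∀ᶠ t in 𝓝 (0 : ℂ), f t = 0 := by
  have h1 : analyticOrderAt (g * f) 0 = ⊤ := by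
    rw [analyticOrderAt_eq_top]
    exact h
  rw [analyticOrderAt_mul ag af, og] at h1
  rcases WithTop.add_eq_top.1 h1 with h2 | h2
  · exact absurd h2 (ENat.natCast_ne_top μ)
  · have h3 : analyticOrderAt f 0 = (⊤ : ℕ∞) := h2
    rwa [analyticOrderAt_eq_top] at h3

/-- One step up. -/
theorem step_up {a : Fin n} {μ W' : ℕ} {U U₁ V : ℂ → Fin n → ℂ} {y : Fin n → ℂ}
    (aU : AnalyticAt ℂ U 0) (aV : AnalyticAt ℂ V 0)
    (hV0 : V 0 = y)
    (hr : ∀ᶠ t in 𝓝 (0 : ℂ), U t = U t a • V t)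
    (hc : ∀ᶠ t in 𝓝 (0 : ℂ), V t a = 1)
    (hd : ∀ᶠ t in 𝓝 (0 : ℂ), U₁ t = deriv V t + Pi.single a (U t a))
    (oU : analyticOrderAt (fun t => U t a) 0 = μ) (z : Fin n → ℂ) :
    ∃ z' : Fin n → ℂ, ∀ (η : ℂ) (U' : ℂ → Fin n → ℂ), AnalyticAt ℂ U' 0 →
      DV (W' + μ + 2) (fun t => U' t - U t - (η * t ^ (W' + μ + 1)) • z) →
      ∃ V₁ U₁' : ℂ → Fin n → ℂ, AnalyticAt ℂ V₁ 0 ∧ AnalyticAt ℂ U₁' 0 ∧ V₁ 0 = y ∧
        (∀ᶠ t in 𝓝 (0 : ℂ), V₁ t a = 1) ∧ (∀ᶠ t in 𝓝 (0 : ℂ), U' t = U' t a • V₁ t) ∧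
        (∀ᶠ t in 𝓝 (0 : ℂ), U₁' t = deriv V₁ t + Pi.single a (U' t a)) ∧
        DV (W' + 1) (fun t => U₁' t - U₁ t - (η * t ^ W') • z') := by
  set g : ℂ → ℂ := fun t => U t a with hg
  have ag : AnalyticAt ℂ g 0 := analyticAt_apply aU a
  obtain ⟨u, hu, hu0, hgu⟩ := (ag.analyticOrderAt_eq_natCast).1 oU
  simp only [sub_zero, smul_eq_mul] at hgu
  set u0 := u 0 with hu0'
  set yy : Fin n → ℂ := z - z a • y with hyy
  refine ⟨((W' + 1 : ℕ) : ℂ) • (u0⁻¹ • yy), ?_⟩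
  intro η U' aU' hR
  set g' : ℂ → ℂ := fun t => U' t a with hg'
  have ag' : AnalyticAt ℂ g' 0 := analyticAt_apply aU' a
  have dU : DV μ U := by
    have h1 := (dv_of_order ag oU).smul (DV.of_an aV)
    exact h1.congr (hr.mono fun t ht => ht.symm)
  have dpow : ∀ (c : Fin n → ℂ) (W : ℕ), DV W (fun t : ℂ => (η * t ^ W) • c) := by
    intro c W
    refine dv_iff.2 ⟨fun _ => η • c, analyticAt_const, Eventually.of_forall fun t => ?_⟩
    rw [smul_smul, mul_comm]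
  have dsub : DV (W' + μ + 1) (fun t => U' t - U t) := by
    refine ((hR.mono (show W' + μ + 1 ≤ W' + μ + 2 by omega)).add (dpow z _)).congr
      (Eventually.of_forall fun t => ?_)
    simp
  have dgsub : DV (W' + μ + 1) (fun t => g' t - g t) := dv_pi.1 dsub a
  have og' : analyticOrderAt g' 0 = μ := order_of_sub oU (by omega) dgsub
  have dU' : DV μ U' := by
    refine ((dsub.mono (show μ ≤ W' + μ + 1 by omega)).add dU).congr
      (Eventually.of_forall fun t => ?_)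
    simp
  obtain ⟨q, dq, hq⟩ := DV.div (N := 0) ag' og' (by rwa [zero_add])
  have aq := dq.1
  -- the chart
  have hqa : ∀ᶠ t in 𝓝 (0 : ℂ), q t a = 1 := by
    have h1 : ∀ᶠ t in 𝓝 (0 : ℂ), g' t * (q t a - 1) = 0 := by
      filter_upwards [hq] with t ht
      have h2 := congrFun ht a
      simp only [Pi.smul_apply, smul_eq_mul] at h2
      rw [mul_sub, ← h2, mul_one]
      simp [hg']
    have h2 := order_eq_zero_of_mul ag' og' ((analyticAt_apply aq a).sub analyticAt_const) h1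
    filter_upwards [h2] with t ht
    exact sub_eq_zero.1 ht
  -- first estimate
  have e1 : DV (W' + 1) (fun t => q t - V t) := by
    apply DV.of_smul ag oU (aq.sub aV)
    have h1 : DV (W' + 1 + μ) (fun t => (U' t - U t) - (g' t - g t) • q t) := by
      apply (dsub.mono (by omega)).sub
      exact ((dgsub.smul (DV.of_an aq)).mono (by omega))
    refine h1.congr ?_
    filter_upwards [hq, hr] with t h2 h3
    simp only [Pi.sub_apply]
    have h4 : U t = g t • V t := h3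
    rw [h2, h4, sub_smul, smul_sub]
    abel
  have hq0 : q 0 = y := by
    have := e1.zero_val
    beta_reduce at this
    rw [← hV0]
    exact sub_eq_zero.1 this
  -- second estimate
  have e2 : DV (W' + 2) (fun t => q t - V t - (η * t ^ (W' + 1)) • (u0⁻¹ • yy)) := by
    have apow : AnalyticAt ℂ (fun t : ℂ => (η * t ^ (W' + 1)) • (u0⁻¹ • yy)) 0 := by fun_prop
    apply DV.of_smul ag oU ((aq.sub aV).sub apow)
    have dq1 : DV 1 (fun t => q t - y) := dv_one (aq.sub analyticAt_const) (by simp [hq0])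
    have du1 : DV 1 (fun t => 1 - u t * u0⁻¹) := by
      apply dv_one (analyticAt_const.sub (hu.mul analyticAt_const))
      simp only [Pi.sub_apply, Pi.mul_apply]
      rw [← hu0', mul_inv_cancel₀ hu0, sub_self]
    have dt : DV (W' + μ + 1) (fun t : ℂ => η * t ^ (W' + μ + 1)) := by
      have := (dv_id.pow (W' + μ + 1)).const_mul η
      rwa [mul_one] at this
    have hRa : DV (W' + μ + 2) (fun t => g' t - g t - η * t ^ (W' + μ + 1) * z a) := by
      refine (dv_pi.1 hR a).congr (Eventually.of_forall fun t => ?_)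
      simp [hg, hg', mul_assoc]
    have t1 : DV (W' + 2 + μ) (fun t => (g' t - g t - η * t ^ (W' + μ + 1) * z a) • q t) :=
      (hRa.smul (DV.of_an aq)).mono (by omega)
    have t2 : DV (W' + 2 + μ) (fun t => (η * t ^ (W' + μ + 1)) • (z a • (q t - y))) :=
      (dt.smul (dq1.const_smul (z a))).mono (by omega)
    have t3 : DV (W' + 2 + μ) (fun t => (η * t ^ (W' + μ + 1) * (1 - u t * u0⁻¹)) • yy) :=
      ((dt.mul du1).smul (DV.of_an (f := fun _ : ℂ => yy) analyticAt_const)).mono (by omega)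
    have t0 := hR.mono (show W' + 2 + μ ≤ W' + μ + 2 by omega)
    refine (((t0.sub t1).sub t2).add t3).congr ?_
    filter_upwards [hq, hr, hgu] with t h2 h3 h4
    simp only [Pi.sub_apply]
    have h5 : U t = g t • V t := h3
    have h6 : g t * (η * t ^ (W' + 1)) * u0⁻¹ = η * t ^ (W' + μ + 1) * (u t * u0⁻¹) := by
      rw [h4]
      ring
    have h7 : g t • (q t - V t - (η * t ^ (W' + 1)) • (u0⁻¹ • yy))
        = g t • (q t - V t) - (η * t ^ (W' + μ + 1) * (u t * u0⁻¹)) • yy := by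
      rw [smul_sub, smul_smul, smul_smul, h6]
    rw [h7, h2, h5, hyy]
    module
  -- the derivative
  have aU₁' : AnalyticAt ℂ (fun t => deriv q t + (Pi.single a (g' t) : Fin n → ℂ)) 0 :=
    aq.deriv.add (an_single ag' a)
  refine ⟨q, fun t => deriv q t + Pi.single a (g' t), aq, aU₁', hq0, hqa, hq,
    Eventually.of_forall fun _ => rfl, ?_⟩
  have e3 := e2.deriv
  have e4 : DV (W' + 1) (fun t => (Pi.single a (g' t - g t) : Fin n → ℂ)) :=
    (dv_single dgsub a).mono (by omega)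
  refine (e3.add e4).congr ?_
  filter_upwards [hd, aq.eventually_analyticAt, aV.eventually_analyticAt] with t h1 h2 h3
  have h4 : HasDerivAt (fun t => q t - V t - (η * t ^ (W' + 1)) • (u0⁻¹ • yy))
      (deriv q t - deriv V t - (η * (((W' + 1 : ℕ) : ℂ) * t ^ W')) • (u0⁻¹ • yy)) t := by
    have h5 := h2.differentiableAt.hasDerivAt
    have h6 := h3.differentiableAt.hasDerivAt
    have h7 : HasDerivAt (fun t : ℂ => η * t ^ (W' + 1)) (η * (((W' + 1 : ℕ) : ℂ) * t ^ W')) t := by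
      have := (hasDerivAt_pow (W' + 1) t).const_mul η
      simpa using this
    exact (h5.sub h6).sub (h7.smul_const _)
  rw [h4.deriv, h1, Pi.single_sub]
  module

variable {i : ℕ → Fin n} {p : ℕ → Fin n → ℂ} {V U V' U' : ℕ → ℂ → Fin n → ℂ} {k : ℕ}

/-- All steps up. -/
theorem up_all (D : Full i k p V U) {μ : ℕ → ℕ}
    (hμ : ∀ j ≤ k, analyticOrderAt (U j) 0 = μ j) {j₀ : ℕ} (z : Fin n → ℂ) :
    ∀ d, j₀ + d ≤ k → ∃ z' : Fin n → ℂ, ∀ (η : ℂ) (V' U' : ℕ → ℂ → Fin n → ℂ),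
      Lift i j₀ p V' U' →
      DV (Ws μ k j₀ + 1) (fun t => U' j₀ t - U j₀ t - (η * t ^ Ws μ k j₀) • z) →
      ∃ V'' U'' : ℕ → ℂ → Fin n → ℂ, Lift i (j₀ + d) p V'' U'' ∧
        (∀ j ≤ j₀, V'' j = V' j ∧ U'' j = U' j) ∧
        DV (Ws μ k (j₀ + d) + 1)
          (fun t => U'' (j₀ + d) t - U (j₀ + d) t - (η * t ^ Ws μ k (j₀ + d)) • z') := by
  intro d
  induction d with
  | zero =>
    intro _
    exact ⟨z, fun η V' U' L h => ⟨V', U', L, fun _ _ => ⟨rfl, rfl⟩, h⟩⟩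
  | succ d ih =>
    intro hd
    obtain ⟨z₁, hz₁⟩ := ih (by omega)
    have hj : j₀ + d < k := by omega
    obtain ⟨z₂, hz₂⟩ := step_up (a := i (j₀ + d + 1)) (μ := μ (j₀ + d)) (W' := Ws μ k (j₀ + d + 1))
      (U := U (j₀ + d)) (U₁ := U (j₀ + d + 1)) (V := V (j₀ + d + 1)) (y := p (j₀ + d + 1))
      (D.anU _ hj.le) (D.anV _ hj) (D.hp _ hj) (D.rel _ hj) (D.chart _ (by omega) hj) (D.der _ hj)
      (by rw [← D.ord_g hj, hμ _ hj.le]) z₁
    refine ⟨z₂, ?_⟩
    intro η V' U' L h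
    obtain ⟨V₁, U₁, L₁, hold, h₁⟩ := hz₁ η V' U' L h
    have hW := Ws_succ (μ := μ) hj
    rw [hW] at h₁
    obtain ⟨V₂, U₂, aV₂, aU₂, hV₂0, hc, hr, hd', h₂⟩ := hz₂ η (U₁ (j₀ + d)) (L₁.anU _ le_rfl) h₁
    refine ⟨_, _, L₁.extend aV₂ aU₂ hV₂0 hc hr hd', ?_, ?_⟩
    · intro j hj'
      rw [Function.update_of_ne (by omega), Function.update_of_ne (by omega)]
      exact hold j hj'
    · rw [show j₀ + (d + 1) = j₀ + d + 1 by ring, Function.update_self]
      exact h₂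

end Pool.Agent.T6.H40.MT
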