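import Mathlib
import Pool.Agent.T6.H40.MT.Up

/-! A perturbation of low order leads out of `Germ(p)`. -/

set_option autoImplicit false

open Filter Topology Pool.Agent.R861.MT

namespace Pool.Agent.T6.H40.MT

variable {n : ℕ} {i : ℕ → Fin n} {p : ℕ → Fin n → ℂ} {V U V' U' : ℕ → ℂ → Fin n → ℂ} {k : ℕ}

theorem exists_norm_ne (a b : ℂ) (hb : b ≠ 0) : ∃ ε : ℂ, ‖a + ε * b‖ ≠ ‖a‖ := by
  by_cases ha : a = 0
  · refine ⟨1, ?_⟩
    rw [ha, zero_add, one_mul, norm_zero]
    exact norm_ne_zero_iff.2 hb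
  · refine ⟨a / b, ?_⟩
    rw [div_mul_cancel₀ _ hb, ← two_mul, norm_mul]
    intro h
    have h1 : ‖(2 : ℂ)‖ = 2 := by simp
    rw [h1] at h
    have h2 := norm_pos_iff.2 ha
    linarith

theorem dv_comp_of_contact (L : Lift i 0 p V U) (L' : Lift i 0 p V' U') {w : ℕ} {τ : ℂ → ℂ}
    (hτ : Bi τ) (h : DV w (fun t => deriv τ t • U' 0 (τ t) - U 0 t)) :
    DV (w + 1) (fun t => V' 0 (τ t) - V 0 t) := by
  have aV := L.anV 0 le_rfl
  have aV' := an_comp (L'.anV 0 le_rfl) hτ.an hτ.zero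
  have aS : AnalyticAt ℂ (fun t => V' 0 (τ t) - V 0 t) 0 := aV'.sub aV
  apply DV.of_deriv aS
  · rw [hτ.zero, L.hp 0 le_rfl, L'.hp 0 le_rfl, sub_self]
  · refine h.congr ?_
    filter_upwards [aV.eventually_analyticAt, aV'.eventually_analyticAt, L.der0,
      hτ.tendsto.eventually L'.der0, Bi.deriv_comp (L'.anV 0 le_rfl) hτ] with t h1 h2 h3 h4 h5
    rw [deriv_fun_sub h2.differentiableAt h1.differentiableAt, h5, h3, h4]

theorem contact_of_dv (L : Lift i 0 p V U) (L' : Lift i 0 p V' U') {w : ℕ} {τ : ℂ → ℂ}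
    (hτ : Bi τ) (h : DV (w + 1) (fun t => V' 0 (τ t) - V 0 t)) :
    DV w (fun t => deriv τ t • U' 0 (τ t) - U 0 t) := by
  have aV := L.anV 0 le_rfl
  have aV' := an_comp (L'.anV 0 le_rfl) hτ.an hτ.zero
  refine h.deriv.congr ?_
  filter_upwards [aV.eventually_analyticAt, aV'.eventually_analyticAt, L.der0,
    hτ.tendsto.eventually L'.der0, Bi.deriv_comp (L'.anV 0 le_rfl) hτ] with t h1 h2 h3 h4 h5
  rw [deriv_fun_sub h2.differentiableAt h1.differentiableAt, h5, h3, h4]

theorem beta (D : Full i k p V U) {μ : ℕ → ℕ} (hμ : ∀ j ≤ k, analyticOrderAt (U j) 0 = μ j)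
    {J : ℕ} (hJ : J + 1 < k) (hν : ∀ j ≤ J, μ j = μ 0) (hk : μ k = 0)
    {c : Fin n} (hc1 : c ≠ i (J + 1)) (hc2 : c ≠ i (J + 2))
    (hnorm : ∀ᶠ t in 𝓝 (0 : ℂ), U (J + 1) t (i (J + 2))
      = ((μ (J + 1) + 1 : ℕ) : ℂ) * t ^ μ (J + 1)) {N' : ℕ} (hN : N' + 1 ≤ Bs μ k (J + 1)) :
    ∃ V' U' : ℕ → ℂ → Fin n → ℂ, Lift i (J + 1) p V' U' ∧
      (∃ τ, Bi τ ∧ DV (N' + 1 + (J + 1) * (μ 0 + 1)) (fun t => V' 0 (τ t) - V 0 t)) ∧
      analyticOrderAt (U' 0) 0 ≠ ⊤ ∧
      ¬ ∃ V'' U'' : ℕ → ℂ → Fin n → ℂ, Full i k p V'' U'' ∧ V'' 0 =ᶠ[𝓝 0] V' 0 := by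
  set N := N' + 1 with hNdef
  have aUc : AnalyticAt ℂ (fun t => U (J + 1) t c) 0 := analyticAt_apply (D.anU (J + 1) hJ.le) c
  obtain ⟨F, aF, F0, hF⟩ := exists_prim aUc 0
  set A := iteratedDeriv N F 0 with hA
  obtain ⟨ε, hε⟩ := exists_norm_ne A (N.factorial : ℂ) (by exact_mod_cast Nat.factorial_ne_zero N)
  set X : ℂ → Fin n → ℂ := fun t => U (J + 1) t
    + (ε * (((N : ℕ) : ℂ) * t ^ N')) • (Pi.single c (1 : ℂ) : Fin n → ℂ) with hX
  have aX : AnalyticAt ℂ X 0 := by
    apply (D.anU (J + 1) hJ.le).add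
    fun_prop
  obtain ⟨V', U', L', hU'⟩ := exists_lift i p (J + 1)
    (fun j h1 h2 => D.data.p_chart h1 (by omega)) X aX
  have LD : Lift i (J + 1) p V U := D.toLift.mono (by omega)
  -- the factor at the level `J`
  have c1 : ∀ᶠ t in 𝓝 (0 : ℂ), U' J t (i (J + 1)) = U J t (i (J + 1)) := by
    filter_upwards [L'.U_chart (j := J) (by omega), LD.U_chart (j := J) (by omega)] with t h1 h2
    rw [← h1, ← h2, hU', hX]
    simp [Pi.single_eq_of_ne hc1.symm]
  -- the component at the level `J + 1`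
  have aR : AnalyticAt ℂ (fun t : ℂ => V (J + 1) t
      + (ε * t ^ N) • (Pi.single c (1 : ℂ) : Fin n → ℂ)) 0 := by
    apply (D.anV (J + 1) hJ.le).add
    fun_prop
  have c2 : V' (J + 1) =ᶠ[𝓝 0] fun t => V (J + 1) t
      + (ε * t ^ N) • (Pi.single c (1 : ℂ) : Fin n → ℂ) := by
    apply eq_of_deriv (L'.anV (J + 1) le_rfl) aR
    · rw [L'.hp (J + 1) le_rfl, D.hp (J + 1) hJ.le]
      simp [hNdef]
    · filter_upwards [L'.der J (by omega), LD.der J (by omega), c1,
        (D.anV (J + 1) hJ.le).eventually_analyticAt] with t h1 h2 h3 h4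
      have h5 : HasDerivAt (fun t : ℂ => V (J + 1) t
          + (ε * t ^ N) • (Pi.single c (1 : ℂ) : Fin n → ℂ)) (deriv (V (J + 1)) t
          + (ε * (((N : ℕ) : ℂ) * t ^ N')) • (Pi.single c (1 : ℂ) : Fin n → ℂ)) t := by
        have h6 : HasDerivAt (fun t : ℂ => ε * t ^ N) (ε * (((N : ℕ) : ℂ) * t ^ N')) t := by
          have := (hasDerivAt_pow N t).const_mul ε
          simpa [hNdef] using this
        exact h4.differentiableAt.hasDerivAt.add (h6.smul_const _)
      rw [h5.deriv]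
      rw [hU', h3] at h1
      have h6 : deriv (V' (J + 1)) t = X t - Pi.single (i (J + 1)) (U J t (i (J + 1))) := by
        rw [h1, add_sub_cancel_right]
      rw [h6, hX]
      simp only
      rw [h2]
      abel
  -- the contact at the level `J`
  have hμJ : μ J = μ 0 := hν J le_rfl
  have aUJ := D.anU J (by omega)
  have con0 : Contact (N + μ 0) (U J) (U' J) := by
    refine ⟨fun t => t, bi_id, ?_⟩
    simp only [deriv_id'', one_smul]
    have ag : AnalyticAt ℂ (fun t => U J t (i (J + 1))) 0 := analyticAt_apply aUJ _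
    have og : analyticOrderAt (fun t => U J t (i (J + 1))) 0 = μ 0 := by
      rw [← LD.ord_g (by omega), hμ J (by omega), hμJ]
    have h1 : DV N (fun t : ℂ => (ε * t ^ N) • (Pi.single c (1 : ℂ) : Fin n → ℂ)) := by
      refine dv_iff.2 ⟨fun _ => ε • Pi.single c (1 : ℂ), analyticAt_const,
        Eventually.of_forall fun t => ?_⟩
      rw [smul_smul, mul_comm]
    have h2 := ((dv_of_order ag og).smul h1).mono (show N + μ 0 ≤ μ 0 + N by omega)
    refine h2.congr ?_
    filter_upwards [c1, c2, L'.rel J (by omega), LD.rel J (by omega)] with t h3 h4 h5 h6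
    rw [h5, h3, h4]
    conv_rhs => rw [h6]
    simp only [Pi.smul_apply, smul_add, smul_eq_mul]
    have h7 : V (J + 1) t (i (J + 1)) = 1 ∨ U J t (i (J + 1)) = 0 := by
      have h8 := congrFun h6 (i (J + 1))
      simp only [Pi.smul_apply, smul_eq_mul] at h8
      by_cases h9 : U J t (i (J + 1)) = 0
      · right; exact h9
      · left
        have h10 : U J t (i (J + 1)) * (V (J + 1) t (i (J + 1)) - 1) = 0 := by
          rw [mul_sub, ← h8]; ring
        rcases mul_eq_zero.1 h10 with h11 | h11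
        · exact absurd h11 h9
        · exact sub_eq_zero.1 h11
    rcases h7 with h7 | h7
    · rw [h7]; simp
    · rw [h7]; simp
  -- down to the level `0`
  have conall : ∀ d j, j + d = J → Contact (N + μ 0 + d * (μ 0 + 1)) (U j) (U' j) := by
    intro d
    induction d with
    | zero =>
      intro j hj
      rw [add_zero] at hj
      subst hj
      rw [zero_mul, add_zero]
      exact con0
    | succ d ih =>
      intro j hj
      have h1 := ih (j + 1) (by omega)
      have h2 := LD.step L' (μ := μ) (j := j) (by omega) (hμ j (by omega))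
        (hμ (j + 1) (by omega)) (Or.inr (by
          have h3 : μ j = μ 0 := hν j (by omega)
          have : 0 ≤ d * (μ 0 + 1) := Nat.zero_le _
          omega)) h1
      rw [hν (j + 1) (by omega)] at h2
      rwa [show N + μ 0 + (d + 1) * (μ 0 + 1) = N + μ 0 + d * (μ 0 + 1) + μ 0 + 1 by ring]
  obtain ⟨τ, hτ, hτ1⟩ := conall J 0 (by omega)
  refine ⟨V', U', L', ⟨τ, hτ, ?_⟩, ?_, ?_⟩
  · have h1 := dv_comp_of_contact (LD.mono (Nat.zero_le _)) (L'.mono (Nat.zero_le _)) hτ hτ1
    refine h1.mono (le_of_eq ?_)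
    ring
  · intro h
    rw [analyticOrderAt_eq_top] at h
    have h1 : DV (N + μ 0 + J * (μ 0 + 1)) (U 0) := by
      refine hτ1.neg.congr ?_
      filter_upwards [hτ.tendsto.eventually h] with t ht
      rw [ht]
      simp
    have h2 := h1.2
    rw [hμ 0 (Nat.zero_le k)] at h2
    have h3 : N + μ 0 + J * (μ 0 + 1) ≤ μ 0 := by exact_mod_cast h2
    have : 0 ≤ J * (μ 0 + 1) := Nat.zero_le _
    omega
  · rintro ⟨V'', U'', D'', hV''⟩
    have hun := (D''.toLift.mono (show J + 1 ≤ k by omega)).unique L' hV''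
      (fun j hj => ord_ne_top D''.data (k - j) j (by omega)) (J + 1) le_rfl
    have hX'' : U'' (J + 1) =ᶠ[𝓝 0] X := by rw [← hU']; exact hun.2
    obtain ⟨τ, hτ, hτ1⟩ := contact_all D D'' hμ (k - (J + 1)) (J + 1) (by omega)
    set b := Bs μ k (J + 1) with hb
    have hbound : μ (J + 1) + 1 ≤ b := mu_bound D hμ hk (by omega)
    have hτX : DV b (fun t => deriv τ t • X (τ t) - U (J + 1) t) := by
      refine hτ1.congr ?_
      filter_upwards [hτ.tendsto.eventually hX''] with t ht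
      rw [ht]
    -- the first component
    have r1 : DV (b + 1) (fun t => τ t ^ (μ (J + 1) + 1) - t ^ (μ (J + 1) + 1)) := by
      have aS : AnalyticAt ℂ (fun t => τ t ^ (μ (J + 1) + 1) - t ^ (μ (J + 1) + 1)) 0 :=
        (hτ.an.pow _).sub (analyticAt_id.pow _)
      apply DV.of_deriv aS
      · simp [hτ.zero]
      · refine (dv_pi.1 hτX (i (J + 2))).congr ?_
        filter_upwards [hnorm, hτ.tendsto.eventually hnorm, hτ.an.eventually_analyticAt]
          with t h1 h2 h3
        have h4 : HasDerivAt (fun t => τ t ^ (μ (J + 1) + 1) - t ^ (μ (J + 1) + 1))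
            (((μ (J + 1) + 1 : ℕ) : ℂ) * τ t ^ μ (J + 1) * deriv τ t
              - ((μ (J + 1) + 1 : ℕ) : ℂ) * t ^ μ (J + 1)) t := by
          have h5 := (h3.differentiableAt.hasDerivAt).pow (μ (J + 1) + 1)
          have h6 := hasDerivAt_pow (μ (J + 1) + 1) t
          exact (h5.sub h6).congr_deriv (by simp)
        rw [h4.deriv]
        simp only [Pi.sub_apply, Pi.smul_apply, smul_eq_mul, hX, Pi.add_apply,
          Pi.single_eq_of_ne hc2.symm]
        rw [h1, h2]
        ring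
    obtain ⟨s, hs⟩ : ∃ s, b + 1 = (μ (J + 1) + 1) + s := ⟨b + 1 - (μ (J + 1) + 1), by omega⟩
    rw [hs] at r1
    obtain ⟨ζ, hζ, hrot⟩ := exists_rotation (by omega) (by omega) hτ r1
    -- the second component
    have r2 : DV (b + 1) (fun t => F (τ t) + ε * τ t ^ N - F t) := by
      have aFτ := an_comp aF hτ.an hτ.zero
      have aS : AnalyticAt ℂ (fun t => F (τ t) + ε * τ t ^ N - F t) 0 :=
        (aFτ.add (analyticAt_const.mul (hτ.an.pow _))).sub aF
      apply DV.of_deriv aS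
      · simp [hτ.zero, hNdef]
      · refine (dv_pi.1 hτX c).congr ?_
        filter_upwards [hF, hτ.tendsto.eventually hF, Bi.deriv_comp aF hτ,
          aFτ.eventually_analyticAt, aF.eventually_analyticAt, hτ.an.eventually_analyticAt]
          with t h1 h2 h3 h4 h5 h6
        have h7 : HasDerivAt (fun t => F (τ t) + ε * τ t ^ N - F t)
            (deriv (fun s => F (τ s)) t + ε * (((N : ℕ) : ℂ) * τ t ^ N' * deriv τ t)
              - deriv F t) t := by
          have h8 := ((h6.differentiableAt.hasDerivAt).pow N).const_mul ε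
          have h9 := h4.differentiableAt.hasDerivAt
          have h10 := h5.differentiableAt.hasDerivAt
          exact ((h9.add h8).sub h10).congr_deriv (by simp [hNdef])
        rw [h7.deriv, h3, h1, h2]
        simp only [Pi.sub_apply, Pi.smul_apply, smul_eq_mul, hX, Pi.add_apply,
          Pi.single_eq_same]
        ring
    have dF : DV (μ (J + 1)) (deriv F) := by
      have h1 := dv_pi.1 (dv_of_order (D.anU (J + 1) hJ.le) (hμ (J + 1) hJ.le)) c
      exact h1.congr hF.symm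
    have hfin := norm_coeff (norm_eq_one_of_pow (by omega) hζ) aF dF hτ (by omega) hrot
      (show 1 ≤ N by omega) (by omega) (r2.mono (by omega))
    exact hε hfin

end Pool.Agent.T6.H40.MT
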