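import Mathlib
import Pool.Agent.T6.H40.MT.Beta

/-! A curve in `Germ(p)` which is far from a given one. -/

set_option autoImplicit false

open Filter Topology Pool.Agent.R861.MT

namespace Pool.Agent.T6.H40.MT

variable {n : ℕ} {i : ℕ → Fin n} {p : ℕ → Fin n → ℂ} {V U V' U' : ℕ → ℂ → Fin n → ℂ} {k : ℕ}

/-- Change of the parameter. -/
theorem Lift.comp {J : ℕ} (L : Lift i J p V U) {τ : ℂ → ℂ} (hτ : Bi τ) :
    Lift i J p (fun j t => V j (τ t)) (fun j t => deriv τ t • U j (τ t)) := by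
  refine ⟨fun j hj => an_comp (L.anV j hj) hτ.an hτ.zero,
    fun j hj => hτ.an.deriv.smul (an_comp (L.anU j hj) hτ.an hτ.zero), ?_, ?_, ?_, ?_, ?_⟩
  · intro j hj
    rw [hτ.zero, L.hp j hj]
  · intro j h1 h2
    exact hτ.tendsto.eventually (L.chart j h1 h2)
  · intro j hj
    filter_upwards [hτ.tendsto.eventually (L.rel j hj)] with t ht
    conv_lhs => rw [ht]
    simp only [Pi.smul_apply, smul_eq_mul]
    rw [smul_smul]
  · intro j hj
    filter_upwards [hτ.tendsto.eventually (L.der j hj), Bi.deriv_comp (L.anV (j + 1) hj) hτ]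
      with t h1 h2
    rw [h2, h1, smul_add, ← Pi.single_smul]
    rfl
  · filter_upwards [hτ.tendsto.eventually L.der0, Bi.deriv_comp (L.anV 0 (Nat.zero_le _)) hτ]
      with t h1 h2
    rw [h2, h1]

theorem Full.comp (D : Full i k p V U) {τ : ℂ → ℂ} (hτ : Bi τ) :
    Full i k p (fun j t => V j (τ t)) (fun j t => deriv τ t • U j (τ t)) := by
  refine ⟨D.toLift.comp hτ, ?_, ?_⟩
  · rw [hτ.zero]
    exact smul_ne_zero hτ.ne D.imm
  · intro j h1 h2 h3
    rw [hτ.zero, Pi.smul_apply, smul_eq_mul]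
    exact mul_ne_zero hτ.ne (D.reg j h1 h2 h3)

/-- A germ of order `m` becomes `t ^ m` after a change of parameter. -/
theorem exists_normal {m : ℕ} (hm : 1 ≤ m) {G : ℂ → ℂ} (aG : AnalyticAt ℂ G 0)
    (oG : analyticOrderAt G 0 = m) : ∃ σ, Bi σ ∧ ∀ᶠ t in 𝓝 (0 : ℂ), G (σ t) = t ^ m := by
  have a1 : AnalyticAt ℂ (fun t : ℂ => t ^ m) 0 := by fun_prop
  have o1 : analyticOrderAt (fun t : ℂ => t ^ m) 0 = m :=
    (a1.analyticOrderAt_eq_natCast).2 ⟨fun _ => 1, analyticAt_const, one_ne_zero, by simp⟩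
  obtain ⟨σ, hσ, h1, -⟩ := exists_param hm a1 aG o1 oG (DV.of_an (aG.sub a1))
  exact ⟨σ, hσ, h1⟩

/-- The contact of the velocities, one step up. -/
theorem step_contact_up {J : ℕ} (L : Lift i J p V U) (L' : Lift i J p V' U') {μ w j : ℕ}
    (hj : j < J) (o : analyticOrderAt (U j) 0 = μ)
    (h : DV (w + μ + 1) (fun t => U' j t - U j t)) :
    DV w (fun t => U' (j + 1) t - U (j + 1) t) := by
  set a := i (j + 1) with ha
  have aV := L.anV (j + 1) hj
  have aV' := L'.anV (j + 1) hj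
  have ag : AnalyticAt ℂ (fun t => U j t a) 0 := analyticAt_apply (L.anU j hj.le) a
  have og : analyticOrderAt (fun t => U j t a) 0 = μ := by rw [← L.ord_g hj, o]
  have dg : DV (w + μ + 1) (fun t => U' j t a - U j t a) := dv_pi.1 h a
  have d1 : DV (w + 1) (fun t => V' (j + 1) t - V (j + 1) t) := by
    apply DV.of_smul ag og (aV'.sub aV)
    have h1 : DV (w + 1 + μ) (fun t => (U' j t - U j t) - (U' j t a - U j t a) • V' (j + 1) t) := by
      apply (h.mono (by omega)).sub
      exact (dg.smul (DV.of_an aV')).mono (by omega)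
    refine h1.congr ?_
    filter_upwards [L.rel j hj, L'.rel j hj] with t h2 h3
    simp only [Pi.sub_apply]
    rw [← ha] at h2 h3
    rw [sub_smul, ← h3, smul_sub, ← h2]
    abel
  have d2 : DV w (fun t => deriv (V' (j + 1)) t - deriv (V (j + 1)) t) := by
    refine d1.deriv.congr ?_
    filter_upwards [aV.eventually_analyticAt, aV'.eventually_analyticAt] with t h1 h2
    rw [deriv_fun_sub h2.differentiableAt h1.differentiableAt]
  have d3 : DV w (fun t => (Pi.single a (U' j t a - U j t a) : Fin n → ℂ)) :=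
    (dv_single dg a).mono (by omega)
  refine (d2.add d3).congr ?_
  filter_upwards [L.der j hj, L'.der j hj] with t h1 h2
  rw [h1, h2, Pi.single_sub, ← ha]
  abel

theorem exists_good (a β : ℂ) (hβ : β ≠ 0) (u z : Fin n → ℂ) :
    ∃ η : ℂ, ‖a + η * β‖ ≠ ‖a‖ ∧ ∀ c, u c ≠ 0 → u c + η * z c ≠ 0 := by
  -- a direction in which the norm increases
  obtain ⟨v, hv⟩ : ∃ v : ℂ, ∀ x : ℝ, 0 < x → ‖a + (x : ℂ) * v * β‖ ≠ ‖a‖ := by
    by_cases ha : a = 0
    · refine ⟨1, fun x hx => ?_⟩
      rw [ha, zero_add, norm_zero]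
      apply norm_ne_zero_iff.2
      have : (x : ℂ) ≠ 0 := by exact_mod_cast hx.ne'
      simpa [this] using hβ
    · refine ⟨a / β, fun x hx => ?_⟩
      have h1 : a + (x : ℂ) * (a / β) * β = ((1 + x : ℝ) : ℂ) * a := by
        push_cast
        field_simp
      rw [h1, norm_mul, Complex.norm_real, Real.norm_of_nonneg (by linarith)]
      intro h2
      have h3 := norm_pos_iff.2 ha
      nlinarith
  have hcont : ∀ᶠ x : ℝ in 𝓝 0, ∀ c, u c ≠ 0 → u c + ((x : ℂ) * v) * z c ≠ 0 := by
    rw [eventually_all]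
    intro c
    by_cases hc : u c = 0
    · exact Eventually.of_forall fun x h => absurd hc h
    · have h1 : Continuous (fun x : ℝ => u c + ((x : ℂ) * v) * z c) := by fun_prop
      have h2 : (fun x : ℝ => u c + ((x : ℂ) * v) * z c) 0 ≠ 0 := by simpa using hc
      filter_upwards [h1.continuousAt.eventually_ne h2] with x hx _
      exact hx
  have hpos : ∃ᶠ x : ℝ in 𝓝 0, 0 < x := by
    have h1 : (𝓝[>] (0 : ℝ)).NeBot := inferInstance
    rw [frequently_iff_forall_eventually_exists_and]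
    intro q hq
    have h2 := (hq.filter_mono nhdsWithin_le_nhds).and (self_mem_nhdsWithin : Set.Ioi (0 : ℝ) ∈ 𝓝[>] 0)
    obtain ⟨x, hx1, hx2⟩ := h2.exists
    exact ⟨x, hx2, hx1⟩
  obtain ⟨x, hx1, hx2⟩ := (hpos.and_eventually hcont).exists
  exact ⟨(x : ℂ) * v, hv x hx1, hx2⟩

theorem alpha (D : Full i k p V U) {μ : ℕ → ℕ} (hμ : ∀ j ≤ k, analyticOrderAt (U j) 0 = μ j)
    {J : ℕ} (hJ : J + 1 < k) (hν : ∀ j ≤ J, μ j = μ 0) (hk : μ k = 0) {d : ℕ} (hd : 1 ≤ d)
    (hd' : μ 0 = μ (J + 1) + d)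
    (hnorm : ∀ᶠ t in 𝓝 (0 : ℂ), V (J + 2) t (i (J + 1)) = t ^ d) :
    ∃ V' U' : ℕ → ℂ → Fin n → ℂ, Full i k p V' U' ∧
      ∀ τ, Bi τ → ¬ DV (Bs μ k (J + 1) + (J + 1) * (μ 0 + 1) + 1)
        (fun t => V' 0 (τ t) - V 0 t) := by
  set b := Bs μ k (J + 1) with hb
  have hbound : μ (J + 1) + 1 ≤ b := mu_bound D hμ hk (by omega)
  obtain ⟨b', hb'⟩ : ∃ b', b = b' + 1 := ⟨b - 1, by omega⟩
  have hW : Ws μ k (J + 2) = b' := by
    have := Bs_eq (μ := μ) (j := J + 1) hJ hk
    rw [← hb, hb'] at this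
    exact (Nat.succ_injective this).symm
  have ag : AnalyticAt ℂ (fun t => U (J + 1) t (i (J + 2))) 0 :=
    analyticAt_apply (D.anU (J + 1) hJ.le) _
  obtain ⟨G, aG, G0, hG⟩ := exists_prim ag 0
  set A := iteratedDeriv b G 0 with hA
  -- the perturbations
  obtain ⟨z, hz⟩ := up_all D hμ (j₀ := J + 2) (((b : ℕ) : ℂ) • (Pi.single (i (J + 2)) (1 : ℂ)))
    (k - (J + 2)) (by omega)
  obtain ⟨η, hη1, hη2⟩ := exists_good A (b.factorial : ℂ)
    (by exact_mod_cast Nat.factorial_ne_zero b) (U k 0) z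
  set X : ℂ → Fin n → ℂ := fun t => U (J + 2) t
    + (η * t ^ b') • (((b : ℕ) : ℂ) • (Pi.single (i (J + 2)) (1 : ℂ)) : Fin n → ℂ) with hX
  have aX : AnalyticAt ℂ X 0 := by
    apply (D.anU (J + 2) hJ).add
    fun_prop
  obtain ⟨V₁, U₁, L₁, hU₁⟩ := exists_lift i p (J + 2)
    (fun j h1 h2 => D.data.p_chart h1 (by omega)) X aX
  obtain ⟨V', U', L', hold, hz'⟩ := hz η V₁ U₁ L₁ (by
    rw [hU₁, hW]
    refine (dv_zero).congr (Eventually.of_forall fun t => ?_)
    rw [hX]
    simp)
  rw [show J + 2 + (k - (J + 2)) = k by omega] at L' hz'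
  have hU'2 : U' (J + 2) = X := by rw [(hold (J + 2) le_rfl).2, hU₁]
  -- the regularity
  have hU'k : U' k 0 = U k 0 + η • z := by
    have := hz'.zero_val
    beta_reduce at this
    rw [Ws_self] at this
    simp only [pow_zero, mul_one] at this
    have h2 : U' k 0 - U k 0 = η • z := sub_eq_zero.1 this
    rw [← h2]; abel
  have D' : Full i k p V' U' := by
    refine ⟨L', ?_, ?_⟩
    · intro h
      apply D.imm
      funext c
      by_contra hc
      have h1 := hη2 c hc
      have h2 := congrFun hU'k c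
      rw [h] at h2
      simp only [Pi.add_apply, Pi.smul_apply, smul_eq_mul, Pi.zero_apply] at h2
      exact h1 h2.symm
    · intro j h1 h2 h3
      have h4 := hη2 _ (D.reg j h1 h2 h3)
      have h5 := congrFun hU'k (i j)
      simp only [Pi.add_apply, Pi.smul_apply, smul_eq_mul] at h5
      rw [h5]
      exact h4
  refine ⟨V', U', D', ?_⟩
  intro τ hτ hclose
  -- the factor at the level `J + 1`
  have LD : Lift i (J + 2) p V U := D.toLift.mono (by omega)
  have LD' : Lift i (J + 2) p V' U' := L'.mono (by omega)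
  have c1 : ∀ᶠ t in 𝓝 (0 : ℂ), U' (J + 1) t (i (J + 2))
      = U (J + 1) t (i (J + 2)) + η * (((b : ℕ) : ℂ) * t ^ b') := by
    filter_upwards [LD'.U_chart (j := J + 1) (by omega), LD.U_chart (j := J + 1) (by omega)]
      with t h1 h2
    rw [← h1, ← h2, hU'2, hX]
    simp only [Pi.add_apply, Pi.smul_apply, Pi.single_eq_same, smul_eq_mul]
    ring
  have c2 : V' (J + 2) =ᶠ[𝓝 0] V (J + 2) := by
    apply eq_of_deriv (LD'.anV (J + 2) le_rfl) (LD.anV (J + 2) le_rfl)
    · rw [LD'.hp (J + 2) le_rfl, LD.hp (J + 2) le_rfl]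
    · filter_upwards [LD'.der (J + 1) (by omega), LD.der (J + 1) (by omega), c1] with t h1 h2 h3
      rw [hU'2, h3] at h1
      have h6 : deriv (V' (J + 2)) t = X t
          - Pi.single (i (J + 2)) (U (J + 1) t (i (J + 2)) + η * (((b : ℕ) : ℂ) * t ^ b')) := by
        rw [h1, add_sub_cancel_right]
      rw [h6, hX]
      simp only
      rw [h2, Pi.single_add, ← mul_one (η * (((b : ℕ) : ℂ) * t ^ b')), ← smul_eq_mul (a := η * _),
        Pi.single_smul]
      module
  -- the change of parameter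
  have LDh := LD'.comp hτ
  have hcl := contact_of_dv (w := b + (J + 1) * (μ 0 + 1)) (LD.mono (Nat.zero_le _))
    (LD'.mono (Nat.zero_le _)) hτ hclose
  have hup : ∀ j ≤ J + 1, DV (b + (J + 1 - j) * (μ 0 + 1))
      (fun t => deriv τ t • U' j (τ t) - U j t) := by
    intro j
    induction j with
    | zero => intro _; exact hcl
    | succ j ih =>
      intro hj
      have h1 := ih (by omega)
      have h2 : b + (J + 1 - j) * (μ 0 + 1) = b + (J + 1 - (j + 1)) * (μ 0 + 1) + μ 0 + 1 := by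
        rw [show J + 1 - j = (J + 1 - (j + 1)) + 1 by omega]
        ring
      rw [h2] at h1
      exact step_contact_up LD LDh (by omega) (by rw [hμ j (by omega), hν j (by omega)]) h1
  have u0 : DV (b + (μ 0 + 1)) (fun t => deriv τ t • U' J (τ t) - U J t) := by
    have := hup J (by omega)
    rwa [show J + 1 - J = 1 by omega, one_mul] at this
  have u1 : DV b (fun t => deriv τ t • U' (J + 1) (τ t) - U (J + 1) t) := by
    have := hup (J + 1) le_rfl
    rwa [show J + 1 - (J + 1) = 0 by omega, zero_mul, add_zero] at this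
  -- the factors
  set a := i (J + 2) with ha
  have dgh : DV b (fun t => deriv τ t * U' (J + 1) (τ t) a - U (J + 1) t a) := dv_pi.1 u1 a
  have hv' : ∀ᶠ t in 𝓝 (0 : ℂ), V' (J + 2) (τ t) (i (J + 1)) = τ t ^ d := by
    filter_upwards [hτ.tendsto.eventually c2, hτ.tendsto.eventually hnorm] with t h1 h2
    rw [h1, h2]
  have e1 : DV (b + (μ 0 + 1))
      (fun t => deriv τ t * U' (J + 1) (τ t) a * τ t ^ d - U (J + 1) t a * t ^ d) := by
    refine (dv_pi.1 u0 (i (J + 1))).congr ?_
    filter_upwards [LD.U_chart (j := J) (by omega), hτ.tendsto.eventually (LD'.U_chart (j := J) (by omega)),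
      LD.rel (J + 1) (by omega), hτ.tendsto.eventually (LD'.rel (J + 1) (by omega)), hv', hnorm]
      with t h1 h2 h3 h4 h5 h6
    simp only [Pi.sub_apply, Pi.smul_apply, smul_eq_mul]
    rw [← h1, ← h2]
    have h7 := congrFun h3 (i (J + 1))
    have h8 := congrFun h4 (i (J + 1))
    simp only [Pi.smul_apply, smul_eq_mul] at h7 h8
    rw [h7, h8, h5, h6]
    ring
  have og : analyticOrderAt (fun t => U (J + 1) t a) 0 = μ (J + 1) := by
    rw [← LD.ord_g (by omega), hμ (J + 1) (by omega)]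
  obtain ⟨s, hs⟩ : ∃ s, b = μ (J + 1) + s := ⟨b - μ (J + 1), by omega⟩
  have e2 : DV (d + s) (fun t => τ t ^ d - t ^ d) := by
    have aS : AnalyticAt ℂ (fun t => τ t ^ d - t ^ d) 0 := (hτ.an.pow _).sub (analyticAt_id.pow _)
    apply DV.of_mul ag og aS
    have h1 : DV (d + s + μ (J + 1)) (fun t =>
        (deriv τ t * U' (J + 1) (τ t) a * τ t ^ d - U (J + 1) t a * t ^ d)
          - (deriv τ t * U' (J + 1) (τ t) a - U (J + 1) t a) * τ t ^ d) := by
      apply (e1.mono (by omega)).sub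
      have h2 := dgh.mul ((dv_one hτ.an hτ.zero).pow d)
      exact h2.mono (by omega)
    refine h1.congr (Eventually.of_forall fun t => ?_)
    ring
  obtain ⟨ζ, hζ, hrot⟩ := exists_rotation hd (by omega) hτ e2
  -- the primitive
  have e3 : DV (b + 1) (fun t => G (τ t) + η * τ t ^ b - G t) := by
    have aGτ := an_comp aG hτ.an hτ.zero
    have aS : AnalyticAt ℂ (fun t => G (τ t) + η * τ t ^ b - G t) 0 :=
      (aGτ.add (analyticAt_const.mul (hτ.an.pow _))).sub aG
    apply DV.of_deriv aS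
    · simp [hτ.zero, hb']
    · refine dgh.congr ?_
      filter_upwards [hG, hτ.tendsto.eventually hG, Bi.deriv_comp aG hτ,
        aGτ.eventually_analyticAt, aG.eventually_analyticAt, hτ.an.eventually_analyticAt,
        hτ.tendsto.eventually c1] with t h1 h2 h3 h4 h5 h6 h0
      have h7 : HasDerivAt (fun t => G (τ t) + η * τ t ^ b - G t)
          (deriv (fun s => G (τ s)) t + η * (((b : ℕ) : ℂ) * τ t ^ b' * deriv τ t)
            - deriv G t) t := by
        have h8 := ((h6.differentiableAt.hasDerivAt).pow b).const_mul η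
        have h9 := h4.differentiableAt.hasDerivAt
        have h10 := h5.differentiableAt.hasDerivAt
        exact ((h9.add h8).sub h10).congr_deriv (by simp [hb'])
      rw [h7.deriv, h3, h1, h2, h0]
      simp only [smul_eq_mul]
      ring
  have dG : DV (μ (J + 1)) (deriv G) := (dv_of_order ag og).congr hG.symm
  have hfin := norm_coeff (norm_eq_one_of_pow hd hζ) aG dG hτ (by omega) hrot
    (show 1 ≤ b by omega) (by omega) e3
  exact hη1 hfin

end Pool.Agent.T6.H40.MT
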