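import Mathlib
import Pool.Agent.R861.MT.Defs

/-!
# Jet identification numbers of points of the Monster tower

The Monster tower over `ℂ^n` in affine charts (`Coord`, `InChart`, `frame`, `IsProlongation`,
`criticalSubmanifolds`, `IsRegularVector`, `Germ`) is defined in `Pool.Agent.R861.MT.Defs`.
-/

set_option autoImplicit false

open Filter Topology Pool.Agent.R861.MT

namespace Pool.Agent.T6.H40.MT

variable {n : ℕ}

/-- `γ` is a curve germ: a nonconstant analytic germ at `0` of a map from `ℂ` to `ℂ^n`. -/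
def IsCurveGerm (γ : ℂ → Fin n → ℂ) : Prop :=
  AnalyticAt ℂ γ 0 ∧ ¬ ∀ᶠ t in 𝓝 (0 : ℂ), γ t = γ 0

/-- `τ` is the germ at `0` of a local biholomorphism of `(ℂ, 0)`. -/
def IsLocalBiholo (τ : ℂ → ℂ) : Prop := AnalyticAt ℂ τ 0 ∧ τ 0 = 0 ∧ deriv τ 0 ≠ 0

/-- `j^r γ =_{rep} β`: the `r`-jet at `0` of `γ ∘ τ` is `β` for some local biholomorphism `τ` of
`(ℂ, 0)`. The `r`-jet of a curve germ is given by its derivatives of the orders `0, …, r` at `0`. -/
def JetRep (r : ℕ) (β : Fin (r + 1) → Fin n → ℂ) (γ : ℂ → Fin n → ℂ) : Prop :=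
  ∃ τ : ℂ → ℂ, IsLocalBiholo τ ∧
    ∀ j : Fin (r + 1), iteratedDeriv (j : ℕ) (fun t => γ (τ t)) 0 = β j

/-- The point `p` of `𝒫^k(n)` (in the chart with the word `i`) has the jet identification number
`r`: there is an `r`-jet `β` such that `Germ(p)` is the set of the curve germs `γ` with
`j^r γ =_{rep} β`. -/
def HasJetIdentificationNumber (i : ℕ → Fin n) {k : ℕ} (p : Coord n k) (r : ℕ) : Prop :=
  ∃ β : Fin (r + 1) → Fin n → ℂ, Germ i p = {γ | IsCurveGerm γ ∧ JetRep r β γ}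

/-- The point `p` of `𝒫^k(n)` (in the chart with the word `i`) is a Cartan point: `p = γ^k(0)` for
some immersed analytic curve germ `γ`. -/
def IsCartan (i : ℕ → Fin n) {k : ℕ} (p : Coord n k) : Prop :=
  ∃ γ : ℂ → Fin n → ℂ, AnalyticAt ℂ γ 0 ∧ deriv γ 0 ≠ 0 ∧
    ∃ c : ℂ → Coord n k, AnalyticAt ℂ c 0 ∧ (∀ᶠ t in 𝓝 (0 : ℂ), InChart i (c t) ∧ c t 0 = γ t) ∧
      IsProlongation i k c ∧ c 0 = p

end Pool.Agent.T6.H40.MT
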