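import Mathlib
import Pool.Agent.T6.H40.MT.Alpha
import Pool.Agent.T6.H40.MT.JetDefs

/-! No point of the Monster tower other than a Cartan point has a jet identification number. -/

set_option autoImplicit false

open Filter Topology Pool.Agent.R861.MT

namespace Pool.Agent.T6.H40.MT

variable {n : ℕ} {i : ℕ → Fin n} {V U V' U' : ℕ → ℂ → Fin n → ℂ} {k : ℕ}

theorem IsLocalBiholo.bi {τ : ℂ → ℂ} (h : IsLocalBiholo τ) : Bi τ := ⟨h.1, h.2.1, h.2.2⟩

theorem Bi.ilb {τ : ℂ → ℂ} (h : Bi τ) : IsLocalBiholo τ := ⟨h.an, h.zero, h.ne⟩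

theorem jet_iff {r : ℕ} {f g : ℂ → Fin n → ℂ} (hf : AnalyticAt ℂ f 0) (hg : AnalyticAt ℂ g 0) :
    (∀ j : Fin (r + 1), iteratedDeriv (j : ℕ) f 0 = iteratedDeriv (j : ℕ) g 0)
      ↔ DV (r + 1) (fun t => f t - g t) := by
  have ha : AnalyticAt ℂ (fun t => f t - g t) 0 := hf.sub hg
  have h1 : ∀ j : ℕ, iteratedDeriv j (fun t => f t - g t) 0
      = iteratedDeriv j f 0 - iteratedDeriv j g 0 := fun j =>
    iteratedDeriv_fun_sub (hf.contDiffAt) (hg.contDiffAt)
  constructor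
  · intro h
    refine ⟨ha, ?_⟩
    rw [natCast_le_analyticOrderAt_iff_iteratedDeriv_eq_zero ha]
    intro j hj
    rw [h1, sub_eq_zero]
    exact h ⟨j, hj⟩
  · intro h j
    have h2 := (natCast_le_analyticOrderAt_iff_iteratedDeriv_eq_zero ha).1 h.2 j j.2
    rw [h1, sub_eq_zero] at h2
    exact h2

/-- curves close to a curve with the jet `β` -/
theorem jetRep_of_close {r : ℕ} {β : Fin (r + 1) → Fin n → ℂ} {γ γ' : ℂ → Fin n → ℂ}
    (hγ : AnalyticAt ℂ γ 0) (hγ' : AnalyticAt ℂ γ' 0) (h : JetRep r β γ) {τ : ℂ → ℂ} (hτ : Bi τ)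
    (hclose : DV (r + 1) (fun t => γ' (τ t) - γ t)) : JetRep r β γ' := by
  obtain ⟨σ, hσ, h1⟩ := h
  have hσ' := hσ.bi
  refine ⟨fun t => τ (σ t), (hτ.comp hσ').ilb, ?_⟩
  have h2 := hclose.comp hσ'.an hσ'.zero
  have h3 := (jet_iff (an_comp hγ' (hτ.comp hσ').an (hτ.comp hσ').zero)
    (an_comp hγ hσ'.an hσ'.zero)).2 h2
  intro j
  rw [h3 j, h1 j]

/-- two curves with the same jet -/
theorem close_of_jetRep {r : ℕ} {β : Fin (r + 1) → Fin n → ℂ} {γ γ' : ℂ → Fin n → ℂ}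
    (hγ : AnalyticAt ℂ γ 0) (hγ' : AnalyticAt ℂ γ' 0) (h : JetRep r β γ) (h' : JetRep r β γ') :
    ∃ τ, Bi τ ∧ DV (r + 1) (fun t => γ' (τ t) - γ t) := by
  obtain ⟨σ, hσ, h1⟩ := h
  obtain ⟨σ', hσ', h1'⟩ := h'
  have hb := hσ.bi
  have hb' := hσ'.bi
  obtain ⟨ψ, hψ, h2, h3⟩ := hb.inv
  refine ⟨fun t => σ' (ψ t), hb'.comp hψ, ?_⟩
  have h4 : DV (r + 1) (fun t => γ' (σ' t) - γ (σ t)) :=
    (jet_iff (an_comp hγ' hb'.an hb'.zero) (an_comp hγ hb.an hb.zero)).1
      (fun j => by rw [h1' j, h1 j])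
  refine (h4.comp hψ.an hψ.zero).congr ?_
  filter_upwards [h2] with t ht
  rw [ht]

theorem main (hn : 3 ≤ n) (i : ℕ → Fin n) (p : Coord n k) (hp : InChart i p)
    (hC : ¬ IsCartan i p) (r : ℕ) : ¬ HasJetIdentificationNumber i p r := by
  rintro ⟨β, hβ⟩
  have key : ∀ γ, γ ∈ Germ i p ↔ IsCurveGerm γ ∧ JetRep r β γ := by
    intro γ
    rw [hβ]
    rfl
  -- a curve through `p`
  obtain ⟨γ₀, hγ₀⟩ := germ_nonempty i hp
  obtain ⟨-, -, c₀, hc₁, hc₂, hc₃, hc₄, hc₅⟩ := hγ₀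
  obtain ⟨V, U, D, -⟩ := exists_full hc₁ hc₂ hc₃ hc₄ hc₅
  obtain ⟨μ, hμ, hk⟩ := exists_mu D
  have hseq0 : ∀ j : Fin (k + 1), seqOf p j = p j := by
    intro j
    simp only [seqOf]
    rw [dif_pos j.2]
  -- `p` is not a Cartan point
  have hμ0 : 1 ≤ μ 0 := by
    rcases Nat.eq_zero_or_pos (μ 0) with h0 | h0
    · exfalso
      apply hC
      have hG := D.germ hp
      obtain ⟨hVa, hVn, -⟩ := hG
      refine ⟨V 0, hVa, ?_, curveOf V k, analyticAt_curveOf D.toLift, ?_,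
        (prolong_curveOf k D.toLift).1, ?_⟩
      · rw [← D.der0.self_of_nhds]
        have h1 := hμ 0 (Nat.zero_le k)
        rw [h0, Nat.cast_zero] at h1
        exact ((D.anU 0 (Nat.zero_le k)).analyticOrderAt_eq_zero).1 h1
      · have h3 : ∀ᶠ t in 𝓝 (0 : ℂ), ∀ j : Fin (k + 1), j ≠ 0 → V j t (i j) = 1 := by
          rw [eventually_all]
          intro j
          by_cases hj : j = 0
          · exact Eventually.of_forall fun t h => absurd hj h
          · have hj1 : 1 ≤ (j : ℕ) := by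
              rcases Nat.eq_zero_or_pos (j : ℕ) with h | h
              · exact absurd (Fin.ext h) hj
              · exact h
            filter_upwards [D.chart j hj1 (by have := j.2; omega)] with t ht _
            exact ht
        filter_upwards [h3] with t ht
        exact ⟨ht, rfl⟩
      · funext j
        rw [← hseq0]
        exact D.hp j (by have := j.2; omega)
    · exact h0
  obtain ⟨J, hJ, hdrop, hν⟩ := exists_drop D hμ hk hμ0
  -- all curves have the same orders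
  have hμ' : ∀ {V' U' : ℕ → ℂ → Fin n → ℂ}, Full i k (seqOf p) V' U' →
      ∀ j ≤ k, analyticOrderAt (U' j) 0 = μ j := by
    intro V' U' D' j hj
    rw [← ord_eq D.data D'.data (k - j) j (by omega), hμ j hj]
  have aU1 := analyticAt_apply (D.anU (J + 1) hJ.le) (i (J + 2))
  have oU1 : analyticOrderAt (fun t => U (J + 1) t (i (J + 2))) 0 = μ (J + 1) := by
    rw [← D.ord_g hJ, hμ (J + 1) hJ.le]
  by_cases hr : r + 1 ≤ Bs μ k (J + 1) + (J + 1) * (μ 0 + 1)
  · -- the order of the perturbation is low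
    obtain ⟨G, aG, G0, hG⟩ := exists_prim aU1 0
    have oG := prim_order aG G0 hG oU1
    obtain ⟨σ, hσ, hσ1⟩ := exists_normal (by omega) aG oG
    set D₁ := D.comp hσ with hD₁
    have hnorm : ∀ᶠ t in 𝓝 (0 : ℂ), (deriv σ t • U (J + 1) (σ t)) (i (J + 2))
        = ((μ (J + 1) + 1 : ℕ) : ℂ) * t ^ μ (J + 1) := by
      have h1 : (fun t => G (σ t)) =ᶠ[𝓝 0] fun t => t ^ (μ (J + 1) + 1) := hσ1
      filter_upwards [h1.eventuallyEq_nhds, Bi.deriv_comp aG hσ, hσ.tendsto.eventually hG]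
        with t h2 h3 h4
      have h5 := h2.deriv_eq
      rw [h3, h4] at h5
      have h6 : deriv (fun t : ℂ => t ^ (μ (J + 1) + 1)) t
          = ((μ (J + 1) + 1 : ℕ) : ℂ) * t ^ μ (J + 1) := by
        simp
      rw [h6] at h5
      exact h5
    -- a third direction
    obtain ⟨c, hc1, hc2⟩ : ∃ c : Fin n, c ≠ i (J + 1) ∧ c ≠ i (J + 2) := by
      by_contra hcon
      push Not at hcon
      have h1 : (Finset.univ : Finset (Fin n)) ⊆ {i (J + 1), i (J + 2)} := by
        intro c _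
        rw [Finset.mem_insert, Finset.mem_singleton]
        by_cases h : c = i (J + 1)
        · left; exact h
        · right; exact hcon c h
      have h2 := Finset.card_le_card h1
      rw [Finset.card_univ, Fintype.card_fin] at h2
      have h3 := Finset.card_le_two (a := i (J + 1)) (b := i (J + 2))
      omega
    have hbpos : μ (J + 1) + 1 ≤ Bs μ k (J + 1) := mu_bound D hμ hk (by omega)
    obtain ⟨N', hN1, hN2⟩ : ∃ N', N' + 1 ≤ Bs μ k (J + 1) ∧
        r + 1 ≤ N' + 1 + (J + 1) * (μ 0 + 1) := by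
      refine ⟨Bs μ k (J + 1) - 1, by omega, by omega⟩
    obtain ⟨V', U', L', ⟨τ, hτ, hclose⟩, hnt, hnot⟩ := beta D₁ (hμ' D₁) hJ hν hk hc1 hc2 hnorm hN1
    have aV0 := D₁.anV 0 (Nat.zero_le k)
    have aV0' := L'.anV 0 (Nat.zero_le _)
    have h1 := (key _).1 (D₁.germ hp)
    have h2 : JetRep r β (V' 0) := jetRep_of_close aV0 aV0' h1.2 hτ (hclose.mono hN2)
    have h3 : IsCurveGerm (V' 0) := by
      refine ⟨aV0', ?_⟩
      intro h
      apply hnt
      rw [analyticOrderAt_eq_top]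
      have h4 : V' 0 =ᶠ[𝓝 0] fun _ => V' 0 0 := h
      filter_upwards [L'.der0, h4.eventuallyEq_nhds] with t h5 h6
      rw [h5, h6.deriv_eq, deriv_const]
    have h4 := (key _).2 ⟨h3, h2⟩
    obtain ⟨-, -, c', hc₁', hc₂', hc₃', hc₄', hc₅'⟩ := h4
    exact hnot (exists_full hc₁' hc₂' hc₃' hc₄' hc₅')
  · -- the jet determines too much
    push Not at hr
    have aV1 := analyticAt_apply (D.anV (J + 2) hJ) (i (J + 1))
    obtain ⟨d, hd⟩ : ∃ d, μ 0 = μ (J + 1) + d := ⟨μ 0 - μ (J + 1), by omega⟩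
    have oV1 : analyticOrderAt (fun t => V (J + 2) t (i (J + 1))) 0 = d := by
      have h1 := D.data.ord_coord (l := J + 1) hJ (i (J + 1))
      rw [D.data.ord_step_same (by omega), ← D.data.ord_U (by omega), hμ J (by omega),
        hν J le_rfl, hμ (J + 1) hJ.le, hd] at h1
      push_cast at h1
      have h2 : (μ (J + 1) : ℕ∞) + (d : ℕ∞)
          = (μ (J + 1) : ℕ∞) + analyticOrderAt (fun t => V (J + 2) t (i (J + 1))) 0 := h1
      exact (ENat.add_right_injective_of_ne_top (ENat.natCast_ne_top (μ (J + 1))) h2).symm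
    obtain ⟨σ, hσ, hσ1⟩ := exists_normal (by omega) aV1 oV1
    set D₁ := D.comp hσ with hD₁
    obtain ⟨V', U', D', hfar⟩ := alpha D₁ (hμ' D₁) hJ hν hk (d := d) (by omega) hd hσ1
    have h1 := (key _).1 (D₁.germ hp)
    have h2 := (key _).1 (D'.germ hp)
    obtain ⟨τ, hτ, hclose⟩ := close_of_jetRep (D₁.anV 0 (Nat.zero_le k)) (D'.anV 0 (Nat.zero_le k))
      h1.2 h2.2
    exact hfar τ hτ (hclose.mono (by omega))

end Pool.Agent.T6.H40.MT
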